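import Pool.Agent.H95.CMC.Targets

/-!
# Row F_TMF: the twisted second moment of the `L`-functions of a fixed weight
-/

set_option autoImplicit false
set_option linter.unusedSectionVars false
set_option linter.unusedVariables false

open MeasureTheory Set Filter NumberField
open scoped Real nonZeroDivisors

namespace Pool.Agent.H95.CMC

open Pool.Agent.H65.CM4 Pool.Agent.H65.CMC
open Pool.Agent.H95.CM (lin Nr un T_UNI T_HBD T_NRI)

/-- one field and one conductor -/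
theorem one_pair (hPVM : T_PVM) {ε κ C1 C2 C3 : ℝ} {j2 : ℕ} (hε : 0 < ε) (hκ0 : 0 < κ)
    (hκ : κ ≤ 1 / 8) (hC1 : 0 < C1) (hC2 : 0 < C2) (hC3 : 0 < C3)
    (k : Type) [Field k] [NumberField k] [IsTotallyReal k]
    (h2 : ∀ (m : Pl k → ℤ) (s : ℂ), |s.re - 1 / 2| ≤ 1 / 8 →
      cG m s.im ≤ C2 * (1 + |s.im| + ms m) ^ j2 * ‖GM m s‖)
    (K : Type) [Field K] [NumberField K] [IsTotallyComplex K] [Algebra k K]
    [Algebra.IsQuadraticExtension k K]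
    (h1 : (Fintype.card (ClassGroup (𝓞 K)) : ℝ) ≤ C1 * |(discr K : ℝ)| ^ (1 / 2 + ε))
    (Φ : Pl k → K →+* ℂ) (f : Ideal (𝓞 k)) (hf : f ≠ ⊥) (m : Pl k → ℤ)
    (b : ℕ) (B y : ℝ) (hb : 0 < b) (R : RL K f b B y)
    (h3 : ∀ c, ((Ln f (R.I c : Ideal (𝓞 K))).card : ℝ) ≤ C3 * nm f ^ (1 + ε))
    (S : Finset (Ideal (𝓞 K) → ℂ)) (F : (Ideal (𝓞 K) → ℂ) → ℂ → ℂ) (hΦ : Emb k Φ)
    (hF : ∀ ψ ∈ S, IsHk Φ f m ψ ∧ IsLk K ψ (F ψ)) (s : ℂ) (A : ℝ) (α : Ideal (𝓞 k) → ℂ) (X : ℝ)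
    (hX : 1 ≤ X) (hs : |s.re - 1 / 2| ≤ κ) (hD1 : X / 4 ≤ |(discr K : ℝ)| * nm f ^ 2)
    (hD2 : |(discr K : ℝ)| * nm f ^ 2 ≤ X) :
    (∑ ψ ∈ S, ‖∑ I ∈ Sq b A, α I * lc k ψ I‖ ^ 2 * ‖F ψ s‖ ^ 2) * cG m s.im ^ 2 ≤
      (2 * C1 * C3 * (dk k : ℝ) ^ 2 * C2 ^ 2) * ((1 + |s.im| + ms m) ^ (2 * j2) *
        X ^ (κ + 2 * ε)) * (((un k K : ℝ)⁻¹) ^ 2 *
        ∑ c, ∑ Λ ∈ Ln f (R.I c : Ideal (𝓞 K)),
          ‖Bm s (sm Φ (R.α Λ) (R.β Λ) m) α b A (R.M Λ) (R.Q Λ)‖ ^ 2) := by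
  have hs8 : |s.re - 1 / 2| ≤ 1 / 8 := hs.trans hκ
  have hP := hPVM k K Φ f m b B y R S F hΦ hb hF s A α hs8
  rw [← Finset.sum_mul] at hP
  set P : ℝ := ∑ ψ ∈ S, ‖∑ I ∈ Sq b A, α I * lc k ψ I‖ ^ 2 * ‖F ψ s‖ ^ 2 with hPd
  set Z : ℝ := ∑ c, ∑ Λ ∈ Ln f (R.I c : Ideal (𝓞 K)),
          ‖Bm s (sm Φ (R.α Λ) (R.β Λ) m) α b A (R.M Λ) (R.Q Λ)‖ ^ 2 with hZ
  set w : ℝ := ((un k K : ℝ)⁻¹) ^ 2 with hw
  have hw0 : 0 ≤ w := by positivity
  have hP0 : 0 ≤ P := Finset.sum_nonneg fun _ _ => by positivity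
  have hZ0 : 0 ≤ Z := Finset.sum_nonneg fun _ _ => Finset.sum_nonneg fun _ _ => by positivity
  have hX0 : 0 < X := by linarith
  have hd0 : (1 : ℝ) ≤ |(discr K : ℝ)| := by
    have : (1 : ℤ) ≤ |discr K| := Int.one_le_abs (discr_ne_zero K)
    exact_mod_cast this
  have hf1 : (1 : ℝ) ≤ nm f := by
    have : Ideal.absNorm f ≠ 0 := by rwa [Ne, Ideal.absNorm_eq_zero_iff]
    unfold nm
    exact_mod_cast Nat.one_le_iff_ne_zero.mpr this
  have hf0 : (0 : ℝ) < nm f := by linarith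
  have hk0 : (1 : ℝ) ≤ (dk k : ℝ) := by
    have : 1 ≤ dk k := Nat.one_le_iff_ne_zero.mpr (Int.natAbs_ne_zero.mpr (discr_ne_zero k))
    exact_mod_cast this
  set q : ℝ := (dk k : ℝ) ^ 2 with hq
  have hq1 : 1 ≤ q := one_le_pow₀ hk0
  set D : ℝ := |(discr K : ℝ)| * nm f ^ 2 with hD
  have hD1' : 1 ≤ D := by
    have : (1 : ℝ) ≤ nm f ^ 2 := one_le_pow₀ hf1
    nlinarith
  have hdD : |(discr K : ℝ)| ≤ X := by
    have : (1 : ℝ) ≤ nm f ^ 2 := one_le_pow₀ hf1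
    nlinarith
  have hfX : nm f ≤ X := by
    have : nm f ≤ nm f ^ 2 := by nlinarith
    nlinarith
  set T : ℝ := 1 + |s.im| + ms m with hT
  have hms : 0 ≤ ms m := Finset.sum_nonneg fun _ _ => abs_nonneg _
  have hT1 : 1 ≤ T := by
    have := abs_nonneg s.im
    linarith
  have hcG : 0 ≤ cG m s.im := Finset.prod_nonneg fun _ _ => norm_nonneg _
  have hg := h2 m s hs8
  have hg2 : cG m s.im ^ 2 ≤ C2 ^ 2 * T ^ (2 * j2) * ‖GM m s‖ ^ 2 := by
    calc cG m s.im ^ 2 ≤ (C2 * T ^ j2 * ‖GM m s‖) ^ 2 := pow_le_pow_left₀ hcG hg 2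
      _ = _ := by
          rw [mul_pow, mul_pow, ← pow_mul, mul_comm j2 2]
  have hs' := abs_le.mp hs
  have hDs : X ^ (1 / 2 - κ) / 2 / q ≤ Dl K f ^ s.re := by
    have e1 : Dl K f ^ s.re = D ^ s.re / q ^ s.re := by
      unfold Dl
      rw [Real.div_rpow (by positivity) (by positivity)]
    have e2 : q ^ s.re ≤ q := by
      calc q ^ s.re ≤ q ^ (1 : ℝ) := Real.rpow_le_rpow_of_exponent_le hq1 (by linarith [hs'.2])
        _ = q := Real.rpow_one q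
    have e3 : X ^ (1 / 2 - κ) / 2 ≤ D ^ s.re := by
      calc X ^ (1 / 2 - κ) / 2 ≤ (X / 4) ^ (1 / 2 - κ) := by
            rw [Real.div_rpow hX0.le (by norm_num)]
            apply div_le_div_of_nonneg_left (Real.rpow_nonneg hX0.le _)
              (Real.rpow_pos_of_pos (by norm_num) _)
            have e : (2 : ℝ) = 4 ^ (1 / 2 : ℝ) := by
              rw [show (4 : ℝ) = 2 ^ (2 : ℝ) by norm_num, ← Real.rpow_mul (by norm_num)]
              norm_num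
            calc (4 : ℝ) ^ (1 / 2 - κ) ≤ 4 ^ (1 / 2 : ℝ) :=
                  Real.rpow_le_rpow_of_exponent_le (by norm_num) (by linarith)
              _ = 2 := e.symm
        _ ≤ D ^ (1 / 2 - κ) :=
            Real.rpow_le_rpow (by positivity) hD1 (by linarith)
        _ ≤ D ^ s.re := Real.rpow_le_rpow_of_exponent_le hD1' (by linarith [hs'.1])
    rw [e1]
    have hqs : 0 < q ^ s.re := Real.rpow_pos_of_pos (by linarith) _
    have hDp : 0 ≤ D ^ s.re := Real.rpow_nonneg (by linarith) _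
    calc X ^ (1 / 2 - κ) / 2 / q ≤ D ^ s.re / q := by gcongr
      _ ≤ D ^ s.re / q ^ s.re := by
          apply div_le_div_of_nonneg_left _ hqs e2
          positivity
  -- the number of the pairs
  have hXp : 0 < X ^ (1 / 2 - κ) := Real.rpow_pos_of_pos hX0 _
  have hN : (∑ c, ((Ln f (R.I c : Ideal (𝓞 K))).card : ℝ)) ≤
      C1 * C3 * (X ^ (κ + 2 * ε) * X ^ (1 / 2 - κ)) := by
    have e1 : (∑ c, ((Ln f (R.I c : Ideal (𝓞 K))).card : ℝ)) ≤
        (Fintype.card (ClassGroup (𝓞 K)) : ℝ) * (C3 * nm f ^ (1 + ε)) := by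
      calc (∑ c, ((Ln f (R.I c : Ideal (𝓞 K))).card : ℝ)) ≤
            ∑ _c : ClassGroup (𝓞 K), C3 * nm f ^ (1 + ε) := Finset.sum_le_sum fun c _ => h3 c
        _ = _ := by rw [Finset.sum_const, Finset.card_univ, nsmul_eq_mul]
    have hnf : 0 ≤ nm f ^ (1 + ε) := Real.rpow_nonneg hf0.le _
    have e2 : |(discr K : ℝ)| ^ (1 / 2 + ε) * nm f ^ (1 + ε) ≤ X ^ (1 / 2 + 2 * ε) := by
      have a1 : |(discr K : ℝ)| ^ (1 / 2 + ε) =
          |(discr K : ℝ)| ^ (1 / 2 : ℝ) * |(discr K : ℝ)| ^ ε :=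
        Real.rpow_add (by linarith) _ _
      have a2 : nm f ^ (1 + ε) = (nm f ^ 2) ^ (1 / 2 : ℝ) * nm f ^ ε := by
        rw [Real.rpow_add hf0, Real.rpow_one, ← Real.sqrt_eq_rpow, Real.sqrt_sq hf0.le]
      have a3 : D ^ (1 / 2 : ℝ) =
          |(discr K : ℝ)| ^ (1 / 2 : ℝ) * (nm f ^ 2) ^ (1 / 2 : ℝ) :=
        Real.mul_rpow (by positivity) (by positivity)
      have a4 : |(discr K : ℝ)| ^ ε ≤ X ^ ε := Real.rpow_le_rpow (by positivity) hdD hε.le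
      have a5 : nm f ^ ε ≤ X ^ ε := Real.rpow_le_rpow hf0.le hfX hε.le
      have a6 : D ^ (1 / 2 : ℝ) ≤ X ^ (1 / 2 : ℝ) :=
        Real.rpow_le_rpow (by positivity) hD2 (by norm_num)
      calc |(discr K : ℝ)| ^ (1 / 2 + ε) * nm f ^ (1 + ε)
          = D ^ (1 / 2 : ℝ) * (|(discr K : ℝ)| ^ ε * nm f ^ ε) := by rw [a1, a2, a3]; ring
        _ ≤ X ^ (1 / 2 : ℝ) * (X ^ ε * X ^ ε) := by
            apply mul_le_mul a6 _ (by positivity) (by positivity)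
            exact mul_le_mul a4 a5 (by positivity) (by positivity)
        _ = X ^ (1 / 2 + 2 * ε) := by
            rw [← Real.rpow_add hX0, ← Real.rpow_add hX0]
            congr 1
            ring
    have e3 : X ^ (1 / 2 + 2 * ε) = X ^ (κ + 2 * ε) * X ^ (1 / 2 - κ) := by
      rw [← Real.rpow_add hX0]
      congr 1
      ring
    rw [← e3]
    calc (∑ c, ((Ln f (R.I c : Ideal (𝓞 K))).card : ℝ))
        ≤ (Fintype.card (ClassGroup (𝓞 K)) : ℝ) * (C3 * nm f ^ (1 + ε)) := e1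
      _ ≤ (C1 * |(discr K : ℝ)| ^ (1 / 2 + ε)) * (C3 * nm f ^ (1 + ε)) :=
          mul_le_mul_of_nonneg_right h1 (by positivity)
      _ = C1 * C3 * (|(discr K : ℝ)| ^ (1 / 2 + ε) * nm f ^ (1 + ε)) := by ring
      _ ≤ C1 * C3 * X ^ (1 / 2 + 2 * ε) := mul_le_mul_of_nonneg_left e2 (by positivity)
  have hDr0 : 0 ≤ Dl K f ^ s.re := Real.rpow_nonneg (by unfold Dl; positivity) _
  have hq0 : 0 < q := by linarith
  have hmain : P * (cG m s.im ^ 2 * (X ^ (1 / 2 - κ) / 2 / q)) ≤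
      C2 ^ 2 * T ^ (2 * j2) * (w * (C1 * C3 * (X ^ (κ + 2 * ε) * X ^ (1 / 2 - κ))) * Z) := by
    calc P * (cG m s.im ^ 2 * (X ^ (1 / 2 - κ) / 2 / q))
        ≤ P * ((C2 ^ 2 * T ^ (2 * j2) * ‖GM m s‖ ^ 2) * Dl K f ^ s.re) := by
          apply mul_le_mul_of_nonneg_left _ hP0
          exact mul_le_mul hg2 hDs (by positivity) (by positivity)
      _ = C2 ^ 2 * T ^ (2 * j2) * (P * (‖GM m s‖ ^ 2 * Dl K f ^ s.re)) := by ring
      _ ≤ C2 ^ 2 * T ^ (2 * j2) *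
          (w * (∑ c, ((Ln f (R.I c : Ideal (𝓞 K))).card : ℝ)) * Z) :=
          mul_le_mul_of_nonneg_left hP (by positivity)
      _ ≤ _ := by
          apply mul_le_mul_of_nonneg_left _ (by positivity)
          apply mul_le_mul_of_nonneg_right _ hZ0
          exact mul_le_mul_of_nonneg_left hN hw0
  have h4 : (P * cG m s.im ^ 2) * X ^ (1 / 2 - κ) ≤ ((2 * C1 * C3 * q * C2 ^ 2) *
      (T ^ (2 * j2) * X ^ (κ + 2 * ε)) * (w * Z)) * X ^ (1 / 2 - κ) := by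
    calc (P * cG m s.im ^ 2) * X ^ (1 / 2 - κ) =
          P * (cG m s.im ^ 2 * (X ^ (1 / 2 - κ) / 2 / q)) * (2 * q) := by field_simp
      _ ≤ (C2 ^ 2 * T ^ (2 * j2) * (w * (C1 * C3 * (X ^ (κ + 2 * ε) * X ^ (1 / 2 - κ))) * Z)) *
          (2 * q) := mul_le_mul_of_nonneg_right hmain (by positivity)
      _ = _ := by ring
  exact le_of_mul_le_mul_right h4 hXp

/-- the weights with signs -/
theorem weights {k : Type} [Field k] [NumberField k] [IsTotallyReal k] (m : Pl k → ℤ) :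
    ∃ W : Finset (Pl k → ℤ), W.card ≤ 2 ^ Fintype.card (Pl k) ∧
      (∀ (K : Type) [Field K] [Algebra k K] (Φ : Pl k → K →+* ℂ) (α β : K), sm Φ α β m ∈ W) ∧
      ∀ w ∈ W, ms w = ms m ∧ ∀ t : ℝ, cG w t = cG m t := by
  classical
  refine ⟨Finset.univ.image fun (τ : Pl k → Bool) v => if τ v = true then m v else -m v, ?_, ?_, ?_⟩
  · refine Finset.card_image_le.trans ?_
    rw [Finset.card_univ, Fintype.card_fun, Fintype.card_bool]
  · intro K _ _ Φ α β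
    rw [Finset.mem_image]
    refine ⟨fun v => decide (0 < (Φ v (β / α)).im), Finset.mem_univ _, ?_⟩
    funext v
    unfold sm
    by_cases h : 0 < (Φ v (β / α)).im
    · simp
    · simp
  · intro w hw
    obtain ⟨τ, -, rfl⟩ := Finset.mem_image.mp hw
    have habs : ∀ v : Pl k, |(if τ v = true then m v else -m v)| = |m v| := by
      intro v
      split_ifs
      · rfl
      · exact abs_neg _
    refine ⟨?_, fun t => ?_⟩
    · unfold ms
      refine Finset.sum_congr rfl fun v _ => ?_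
      rw [← Int.cast_abs, ← Int.cast_abs, habs]
    · unfold cG
      refine Finset.prod_congr rfl fun v _ => ?_
      rw [habs]

/-- the number of the lines with a given reduced pair -/
theorem sum_fib {k K : Type} [Field k] [NumberField k] [IsTotallyReal k] [Field K] [NumberField K]
    [Algebra k K] (f : Ideal (𝓞 k)) (b : ℕ) (B y : ℝ) (R : RL K f b B y) (p : La k × QF k)
    (n : ℕ) [DecidableEq (La k × QF k)]
    (h : {x : ClassGroup (𝓞 K) × Sl k K | x.2 ∈ Ln f (R.I x.1 : Ideal (𝓞 K)) ∧ R.M x.2 = p.1 ∧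
      R.Q x.2 = p.2}.ncard ≤ n) :
    ∑ c, ∑ Λ ∈ Ln f (R.I c : Ideal (𝓞 K)), (if (R.M Λ, R.Q Λ) = p then (1 : ℝ) else 0) ≤ n := by
  classical
  have e1 : ∑ c, ∑ Λ ∈ Ln f (R.I c : Ideal (𝓞 K)), (if (R.M Λ, R.Q Λ) = p then (1 : ℝ) else 0) =
      (((Finset.univ.sigma fun c => (Ln f (R.I c : Ideal (𝓞 K))).filter
        fun Λ => (R.M Λ, R.Q Λ) = p).card : ℕ) : ℝ) := by
    rw [Finset.card_sigma]
    push_cast
    refine Finset.sum_congr rfl fun c _ => ?_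
    rw [Finset.sum_boole]
  rw [e1]
  have e2 : (Finset.univ.sigma fun c => (Ln f (R.I c : Ideal (𝓞 K))).filter
        fun Λ => (R.M Λ, R.Q Λ) = p).card ≤ n := by
    have hfin : {x : ClassGroup (𝓞 K) × Sl k K | x.2 ∈ Ln f (R.I x.1 : Ideal (𝓞 K)) ∧
        R.M x.2 = p.1 ∧ R.Q x.2 = p.2}.Finite := by
      refine Set.Finite.subset (s := ((Finset.univ ×ˢ (Finset.univ.biUnion
        fun c => Ln f (R.I c : Ideal (𝓞 K))) : Finset (ClassGroup (𝓞 K) × Sl k K)) :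
          Set (ClassGroup (𝓞 K) × Sl k K))) (Finset.finite_toSet _) ?_
      intro x hx
      simp only [Finset.coe_product, Set.mem_prod, Finset.mem_coe, Finset.mem_univ, true_and,
        Finset.mem_biUnion]
      exact ⟨x.1, hx.1⟩
    refine le_trans ?_ h
    rw [Set.ncard_eq_toFinset_card _ hfin]
    refine Finset.card_le_card_of_injOn (fun x => (x.1, x.2)) ?_ ?_
    · rintro ⟨c, Λ⟩ hx
      have hx' := Finset.mem_sigma.mp (Finset.mem_coe.mp hx)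
      have hx2 := Finset.mem_filter.mp hx'.2
      rw [Finset.mem_coe, Set.Finite.mem_toFinset]
      exact ⟨hx2.1, congrArg Prod.fst hx2.2, congrArg Prod.snd hx2.2⟩
    · rintro ⟨c, Λ⟩ _ ⟨c', Λ'⟩ _ h
      have h1 : c = c' := congrArg Prod.fst h
      have h2 : Λ = Λ' := congrArg Prod.snd h
      rw [h1, h2]
  exact_mod_cast e2

theorem pf_TMF (hTM : T_TMm) (hRSL : T_RSL) (hPVM : T_PVM) (hINM : T_INM) (hMUM : T_MUM)
    (hMUN : T_MUN) (hLNC : T_LNC) (hLNB : T_LNB) (hUNI : T_UNI) (hHBD : T_HBD) (hNRI : T_NRI)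
    (hGMN : T_GMN) : T_TMFm := by
  classical
  intro k _ _ _
  obtain ⟨b0, hb0, hTMk⟩ := hTM k
  obtain ⟨b1, B, hb1, hB1, hRSk⟩ := hRSL k
  have hb : 0 < b0 * b1 := Nat.mul_pos hb0 hb1
  refine ⟨b0 * b1, hb, ?_⟩
  set b : ℕ := b0 * b1 with hbd
  intro ε hε
  obtain ⟨κ0, hκ0, hκ8, δ, hδ, C0, j0, hC0, hTMε⟩ :=
    hTMk b B hb (Dvd.intro _ rfl) hB1 (ε / 2) (by positivity)
  obtain ⟨C1, hC1, h1⟩ := hHBD (2 * dg k) (ε / 8) (by positivity)
  obtain ⟨C2, j2, hC2, h2⟩ := hGMN k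
  obtain ⟨C3, hC3, h3⟩ := hLNC k (ε / 8) (by positivity)
  obtain ⟨C4, hC4, h4⟩ := hNRI (dg k) (ε / 8) (by positivity)
  set κ : ℝ := min κ0 (ε / 8) with hκ
  have hκpos : 0 < κ := lt_min hκ0 (by positivity)
  have hκle8 : κ ≤ 1 / 8 := (min_le_left _ _).trans hκ8
  have hk0 : (1 : ℝ) ≤ (dk k : ℝ) := by
    have : 1 ≤ dk k := Nat.one_le_iff_ne_zero.mpr (Int.natAbs_ne_zero.mpr (discr_ne_zero k))
    exact_mod_cast this
  have hn0 : 0 < dg k := Module.finrank_pos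
  have hnR : (0 : ℝ) < dg k := by exact_mod_cast hn0
  set G : ℝ := 2 * C1 * C3 * (dk k : ℝ) ^ 2 * C2 ^ 2 with hG
  have hG0 : 0 < G := by positivity
  set V : ℝ := 2 ^ Fintype.card (Pl k) with hV
  have hV0 : 0 < V := by positivity
  refine ⟨κ, hκpos, hκle8, δ, hδ, G * (2 * C4) * (V * (C0 + 1)), 2 * j2 + j0, by positivity, ?_⟩
  intro s X A α ι K _ _ _ Φ S f m F hs hX hA hAX hα hFml
  have hX0 : 0 < X := by linarith
  set y : ℝ := X ^ (1 / (2 * dg k : ℝ)) with hy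
  have hy1 : 1 ≤ y := Real.one_le_rpow hX (by positivity)
  have hyr : ∀ r : ℝ, y ^ (dg k * r) = X ^ (r / 2) := by
    intro r
    rw [hy, ← Real.rpow_mul hX0.le]
    congr 1
    field_simp
  -- the pairs of a field and a conductor
  set T : Finset (ι × Ideal (𝓞 k)) := S.image fun x => (x.1, f x) with hT
  have hTm : ∀ q ∈ T, ∃ x ∈ S, x.1 = q.1 ∧ f x = q.2 := by
    intro q hq
    obtain ⟨x, hx, e⟩ := Finset.mem_image.mp hq
    exact ⟨x, hx, congrArg Prod.fst e, congrArg Prod.snd e⟩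
  have hTp : ∀ q ∈ T, Module.finrank k (K q.1) = 2 ∧ IsTotallyComplex (K q.1) ∧
      Emb k (Φ q.1) ∧ q.2 ≠ ⊥ ∧ X / 4 ≤ |(discr (K q.1) : ℝ)| * nm q.2 ^ 2 ∧
      |(discr (K q.1) : ℝ)| * nm q.2 ^ 2 ≤ X := by
    rintro ⟨i, g⟩ hq
    obtain ⟨x, hx, e1, e2⟩ := hTm _ hq
    obtain ⟨i', ψ⟩ := x
    have e1' : i' = i := e1
    subst e1'
    have e2' : f ⟨i', ψ⟩ = g := e2
    have a1 := hFml.lo _ hx
    have a2 := hFml.hi _ hx
    unfold cdc at a1 a2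
    rw [e2'] at a1 a2
    refine ⟨hFml.rk _ hx, hFml.cx _ hx, hFml.emb _ hx, ?_, a1, a2⟩
    have a3 := (hFml.hk _ hx).fne
    rwa [e2'] at a3
  have hTn : ∀ q ∈ T, ∀ q' ∈ T, Nonempty (K q.1 ≃ₐ[k] K q'.1) → q.1 = q'.1 := by
    rintro ⟨i, g⟩ hq ⟨i', g'⟩ hq' he
    obtain ⟨⟨i1, ψ⟩, hx, e1, -⟩ := hTm _ hq
    obtain ⟨⟨i1', ψ'⟩, hx', e1', -⟩ := hTm _ hq'
    have e2 : i1 = i := e1
    have e2' : i1' = i' := e1'
    subst e2
    subst e2'
    exact hFml.ne _ hx _ hx' he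
  have hquad : ∀ q ∈ T, Algebra.IsQuadraticExtension k (K q.1) := by
    intro q hq
    exact { finrank_eq_two' := (hTp q hq).1 }
  have hR : ∀ q : {q // q ∈ T}, Nonempty (RL (K q.1.1) q.1.2 b B y) := by
    intro q
    obtain ⟨-, hcx, -, hne, hl, hu⟩ := hTp q.1 q.2
    have hqd := hquad q.1 q.2
    have hDp : (0 : ℝ) ≤ |(discr (K q.1.1) : ℝ)| * nm q.1.2 ^ 2 := by positivity
    refine hRSk b hb (Dvd.intro_left _ rfl) (K q.1.1) q.1.2 y hne ?_ ?_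
    · exact Real.rpow_le_rpow hDp hu (by positivity)
    · have h4 : X ≤ 4 * (|(discr (K q.1.1) : ℝ)| * nm q.1.2 ^ 2) := by linarith
      calc y ≤ (4 * (|(discr (K q.1.1) : ℝ)| * nm q.1.2 ^ 2)) ^ (1 / (2 * dg k : ℝ)) :=
            Real.rpow_le_rpow hX0.le h4 (by positivity)
        _ = 4 ^ (1 / (2 * dg k : ℝ)) *
            (|(discr (K q.1.1) : ℝ)| * nm q.1.2 ^ 2) ^ (1 / (2 * dg k : ℝ)) :=
            Real.mul_rpow (by norm_num) hDp
        _ ≤ 2 * (|(discr (K q.1.1) : ℝ)| * nm q.1.2 ^ 2) ^ (1 / (2 * dg k : ℝ)) := by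
            apply mul_le_mul_of_nonneg_right _ (Real.rpow_nonneg hDp _)
            have h5 : (1 : ℝ) ≤ dg k := by exact_mod_cast hn0
            calc (4 : ℝ) ^ (1 / (2 * dg k : ℝ)) ≤ 4 ^ (1 / 2 : ℝ) := by
                  apply Real.rpow_le_rpow_of_exponent_le (by norm_num)
                  apply one_div_le_one_div_of_le (by norm_num)
                  linarith
              _ = 2 := by
                  rw [show (4 : ℝ) = 2 ^ (2 : ℝ) by norm_num, ← Real.rpow_mul (by norm_num)]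
                  norm_num
  let R : ∀ q : {q // q ∈ T}, RL (K q.1.1) q.1.2 b B y := fun q => Classical.choice (hR q)
  -- the characters of a pair
  have hinj : ∀ (i : ι) (ψ ψ' : Ideal (𝓞 (K i)) → ℂ), (⟨i, ψ⟩ : Idx K) = ⟨i, ψ'⟩ → ψ = ψ' :=
    fun i ψ ψ' h => eq_of_heq (Sigma.mk.inj_iff.mp h).2
  have hSqe : ∀ q : ι × Ideal (𝓞 k), ∃ Sf : Finset (Ideal (𝓞 (K q.1)) → ℂ), ∀ ψ, ψ ∈ Sf ↔
      (⟨q.1, ψ⟩ : Idx K) ∈ S ∧ f ⟨q.1, ψ⟩ = q.2 := by
    intro q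
    have hfin : {ψ : Ideal (𝓞 (K q.1)) → ℂ | (⟨q.1, ψ⟩ : Idx K) ∈ S ∧
        f ⟨q.1, ψ⟩ = q.2}.Finite := by
      have h5 := S.finite_toSet.preimage (f := fun ψ : Ideal (𝓞 (K q.1)) → ℂ => (⟨q.1, ψ⟩ : Idx K))
        (fun ψ _ ψ' _ h => hinj q.1 ψ ψ' h)
      exact h5.subset fun ψ h => h.1
    exact ⟨hfin.toFinset, fun ψ => hfin.mem_toFinset⟩
  choose Sq' hSq' using hSqe
  have hfibre : ∀ (g : Idx K → ℝ) (q : ι × Ideal (𝓞 k)),
      ∑ x ∈ S.filter (fun x => (x.1, f x) = q), g x = ∑ ψ ∈ Sq' q, g ⟨q.1, ψ⟩ := by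
    intro g q
    have e : S.filter (fun x => (x.1, f x) = q) =
        (Sq' q).image fun ψ => (⟨q.1, ψ⟩ : Idx K) := by
      ext x
      rw [Finset.mem_filter, Finset.mem_image]
      constructor
      · rintro ⟨hx, e⟩
        obtain ⟨i, ψ⟩ := x
        obtain ⟨i', g'⟩ := q
        have e1 : i = i' := congrArg Prod.fst e
        subst e1
        exact ⟨ψ, (hSq' _ _).mpr ⟨hx, congrArg Prod.snd e⟩, rfl⟩
      · rintro ⟨ψ, hψ, rfl⟩
        obtain ⟨a1, a2⟩ := (hSq' _ _).mp hψ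
        exact ⟨a1, Prod.ext rfl a2⟩
    rw [e, Finset.sum_image fun ψ _ ψ' _ h => hinj q.1 ψ ψ' h]
  have hsumS : ∀ g : Idx K → ℝ, ∑ x ∈ S, g x =
      ∑ q : {q // q ∈ T}, ∑ ψ ∈ Sq' q.1, g ⟨q.1.1, ψ⟩ := by
    intro g
    rw [← Finset.sum_fiberwise_of_maps_to (s := S) (t := T) (g := fun x => (x.1, f x))
      (fun x hx => Finset.mem_image_of_mem _ hx) g]
    rw [← Finset.sum_coe_sort T fun q => ∑ x ∈ S.filter (fun x => (x.1, f x) = q), g x]
    refine Finset.sum_congr rfl fun q _ => ?_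
    exact hfibre g q.1
  -- the weights
  obtain ⟨W, hW1, hW2, hW3⟩ := weights m
  have hW1' : (W.card : ℝ) ≤ V := by
    rw [hV]
    exact_mod_cast hW1
  have hs0 : |s.re - 1 / 2| ≤ κ0 := hs.trans (min_le_left _ _)
  have hms : 0 ≤ ms m := Finset.sum_nonneg fun _ _ => abs_nonneg _
  set Tt : ℝ := 1 + |s.im| + ms m with hTt
  have hTt1 : 1 ≤ Tt := by
    have := abs_nonneg s.im
    linarith
  have hTt0 : 0 < Tt := by linarith
  set H : La k × QF k → ℝ := fun p => ∑ w ∈ W, ‖Bm s w α b A p.1 p.2‖ ^ 2 with hH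
  have hH0 : ∀ p, 0 ≤ H p := fun p => Finset.sum_nonneg fun _ _ => by positivity
  -- the pairs
  let S' : Finset (La k × QF k) := Finset.univ.biUnion fun q : {q // q ∈ T} =>
    Finset.univ.biUnion fun c => (Ln q.1.2 ((R q).I c : Ideal (𝓞 (K q.1.1)))).image
      fun Λ => ((R q).M Λ, (R q).Q Λ)
  have hS'm : ∀ p ∈ S', ∃ (q : {q // q ∈ T}) (c : ClassGroup (𝓞 (K q.1.1)))
      (Λ : Sl k (K q.1.1)), Λ ∈ Ln q.1.2 ((R q).I c : Ideal (𝓞 (K q.1.1))) ∧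
      ((R q).M Λ, (R q).Q Λ) = p := by
    intro p hp
    obtain ⟨q, -, hq⟩ := Finset.mem_biUnion.mp hp
    obtain ⟨c, -, hc⟩ := Finset.mem_biUnion.mp hq
    obtain ⟨Λ, hΛ, e⟩ := Finset.mem_image.mp hc
    exact ⟨q, c, Λ, hΛ, e⟩
  have hS'in : ∀ (q : {q // q ∈ T}) (c : ClassGroup (𝓞 (K q.1.1))) (Λ : Sl k (K q.1.1)),
      Λ ∈ Ln q.1.2 ((R q).I c : Ideal (𝓞 (K q.1.1))) → ((R q).M Λ, (R q).Q Λ) ∈ S' :=
    fun q c Λ hΛ => Finset.mem_biUnion.mpr ⟨q, Finset.mem_univ _,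
      Finset.mem_biUnion.mpr ⟨c, Finset.mem_univ _, Finset.mem_image_of_mem _ hΛ⟩⟩
  have hHsum : ∑ p ∈ S', H p ≤
      V * ((C0 + 1) * Tt ^ j0 * cG m s.im ^ 2 * X ^ ((3 + ε / 2) / 2) * A) := by
    have hA0 : 0 ≤ A := by linarith
    have hcG : 0 ≤ cG m s.im := Finset.prod_nonneg fun _ _ => norm_nonneg _
    have e1 : ∑ p ∈ S', H p = ∑ w ∈ W, ∑ p ∈ S', ‖Bm s w α b A p.1 p.2‖ ^ 2 :=
      Finset.sum_comm
    rw [e1]
    calc ∑ w ∈ W, ∑ p ∈ S', ‖Bm s w α b A p.1 p.2‖ ^ 2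
        ≤ ∑ _w ∈ W, ((C0 + 1) * Tt ^ j0 * cG m s.im ^ 2 * X ^ ((3 + ε / 2) / 2) * A) := by
          refine Finset.sum_le_sum fun w hw => ?_
          have h5 := hTMε s w y A α S' hs0 hy1 hA (by rw [hyr]; exact hAX) hα (by
            intro p hp
            obtain ⟨q, c, Λ, hΛ, rfl⟩ := hS'm p hp
            exact (R q).rd c Λ hΛ)
          rw [hyr, (hW3 w hw).1, (hW3 w hw).2] at h5
          refine h5.trans ?_
          have : C0 ≤ C0 + 1 := by linarith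
          gcongr
      _ = (W.card : ℝ) * ((C0 + 1) * Tt ^ j0 * cG m s.im ^ 2 * X ^ ((3 + ε / 2) / 2) * A) := by
          rw [Finset.sum_const, nsmul_eq_mul]
      _ ≤ _ := mul_le_mul_of_nonneg_right hW1' (by positivity)
  -- multiplicities
  set N : {q // q ∈ T} → La k × QF k → ℝ := fun q p => ∑ c,
    ∑ Λ ∈ Ln q.1.2 ((R q).I c : Ideal (𝓞 (K q.1.1))),
      (if ((R q).M Λ, (R q).Q Λ) = p then (1 : ℝ) else 0) with hN
  set u : {q // q ∈ T} → ℝ := fun q => ((un k (K q.1.1) : ℝ)⁻¹) ^ 2 with hu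
  have hu0 : ∀ q, 0 ≤ u q := fun q => by positivity
  have hN0 : ∀ q p, 0 ≤ N q p := fun q p => Finset.sum_nonneg fun _ _ =>
    Finset.sum_nonneg fun _ _ => by split_ifs <;> norm_num
  have hNH : ∀ q, ∑ c, ∑ Λ ∈ Ln q.1.2 ((R q).I c : Ideal (𝓞 (K q.1.1))),
      H ((R q).M Λ, (R q).Q Λ) = ∑ p ∈ S', N q p * H p := by
    intro q
    have e1 : ∀ p ∈ S', N q p * H p = ∑ c,
        ∑ Λ ∈ Ln q.1.2 ((R q).I c : Ideal (𝓞 (K q.1.1))),
          (if ((R q).M Λ, (R q).Q Λ) = p then H p else 0) := by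
      intro p _
      rw [hN]
      simp only [Finset.sum_mul]
      refine Finset.sum_congr rfl fun c _ => Finset.sum_congr rfl fun Λ _ => ?_
      split_ifs <;> simp
    rw [Finset.sum_congr rfl e1, Finset.sum_comm]
    refine Finset.sum_congr rfl fun c _ => ?_
    have e2 : ∑ p ∈ S', ∑ Λ ∈ Ln q.1.2 ((R q).I c : Ideal (𝓞 (K q.1.1))),
        (if ((R q).M Λ, (R q).Q Λ) = p then H p else 0) =
        ∑ Λ ∈ Ln q.1.2 ((R q).I c : Ideal (𝓞 (K q.1.1))), ∑ p ∈ S',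
        (if ((R q).M Λ, (R q).Q Λ) = p then H p else 0) := Finset.sum_comm
    rw [e2]
    refine Finset.sum_congr rfl fun Λ hΛ => ?_
    rw [Finset.sum_ite_eq, if_pos (hS'in q c Λ hΛ)]
  have hmult : ∀ p ∈ S', ∑ q, u q * N q p ≤ 2 * C4 * X ^ (ε / 8) := by
    intro p hp
    obtain ⟨q₀, c₀, Λ₀, hΛ₀, e₀⟩ := hS'm p hp
    obtain ⟨hfr₀, hcx₀, hem₀, hne₀, hl₀, hup₀⟩ := hTp q₀.1 q₀.2
    have hqd₀ := hquad q₀.1 q₀.2
    have hkey : ∀ q : {q // q ∈ T}, u q * N q p ≤ 2 ∧ (N q p ≠ 0 → q.1.1 = q₀.1.1 ∧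
        Ideal.absNorm q.1.2 = Ideal.absNorm q₀.1.2) := by
      rintro ⟨⟨i, g⟩, hq⟩
      obtain ⟨hfr, hcx, hem, hne, hl, hup⟩ := hTp (i, g) hq
      have hqd := hquad (i, g) hq
      have hune : 0 < un k (K i) := hUNI k (K i)
      have hun1 : (1 : ℝ) ≤ (un k (K i) : ℝ) := by exact_mod_cast hune
      have hn1 : N ⟨(i, g), hq⟩ p ≤ ((2 * un k (K i) : ℕ) : ℝ) := by
        have h5 := hMUM k (K i) g b B y (R ⟨(i, g), hq⟩) p.1 p.2 hne hb
        exact sum_fib g b B y (R ⟨(i, g), hq⟩) p _ h5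
      refine ⟨?_, ?_⟩
      · have e1 : u ⟨(i, g), hq⟩ = ((un k (K i) : ℝ)⁻¹) ^ 2 := rfl
        rw [e1]
        calc ((un k (K i) : ℝ)⁻¹) ^ 2 * N ⟨(i, g), hq⟩ p
            ≤ ((un k (K i) : ℝ)⁻¹) ^ 2 * ((2 * un k (K i) : ℕ) : ℝ) :=
              mul_le_mul_of_nonneg_left hn1 (by positivity)
          _ = 2 * (un k (K i) : ℝ)⁻¹ := by
              push_cast
              field_simp
          _ ≤ 2 * 1 := by
              apply mul_le_mul_of_nonneg_left _ (by norm_num)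
              exact inv_le_one_of_one_le₀ hun1
          _ = 2 := by norm_num
      · intro hne'
        have hex : ∃ (c : ClassGroup (𝓞 (K i))) (Λ : Sl k (K i)),
            Λ ∈ Ln g ((R ⟨(i, g), hq⟩).I c : Ideal (𝓞 (K i))) ∧
            ((R ⟨(i, g), hq⟩).M Λ, (R ⟨(i, g), hq⟩).Q Λ) = p := by
          by_contra hcon
          apply hne'
          rw [hN]
          refine Finset.sum_eq_zero fun c _ => Finset.sum_eq_zero fun Λ hΛ => ?_
          rw [if_neg]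
          intro h
          exact hcon ⟨c, Λ, hΛ, h⟩
        obtain ⟨c, Λ, hΛ, e⟩ := hex
        have o1 := (R ⟨(i, g), hq⟩).ol c Λ hΛ
        have o2 := (R q₀).ol c₀ Λ₀ hΛ₀
        have ee := e.trans e₀.symm
        have e1 : (R ⟨(i, g), hq⟩).M Λ = (R q₀).M Λ₀ := congrArg Prod.fst ee
        have e2 : (R ⟨(i, g), hq⟩).Q Λ = (R q₀).Q Λ₀ := congrArg Prod.snd ee
        rw [e1, e2] at o1
        obtain ⟨eq, _⟩ := hINM k (K i) (K q₀.1.1) b b _ _ _ _ _ _ _ _ _ _ hb hb o1 o2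
        have hi : i = q₀.1.1 := hTn (i, g) hq q₀.1 q₀.2 ⟨eq⟩
        subst hi
        refine ⟨rfl, ?_⟩
        exact hMUN k (K q₀.1.1) g q₀.1.2 b b _ _ Λ Λ₀ _ _ _ _ _ _ _ _ hne hne₀
          ((R ⟨(q₀.1.1, g), hq⟩).pr c) ((R q₀).pr c₀) hΛ hΛ₀ hb hb o1 o2
    set n₀ : ℕ := Ideal.absNorm q₀.1.2 with hn₀
    have hn₀1 : 1 ≤ n₀ := Nat.one_le_iff_ne_zero.mpr (by rwa [Ne, Ideal.absNorm_eq_zero_iff])
    let Q₀ : Finset {q // q ∈ T} := Finset.univ.filter fun q => q.1.1 = q₀.1.1 ∧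
      Ideal.absNorm q.1.2 = n₀
    have hcard : (Q₀.card : ℝ) ≤ C4 * X ^ (ε / 8) := by
      have h5 := h4 k rfl n₀ hn₀1
      have hfin : {J : Ideal (𝓞 k) | Ideal.absNorm J = n₀}.Finite :=
        Ideal.finite_setOfPred_absNorm_eq n₀
      have h6 : Q₀.card ≤ {J : Ideal (𝓞 k) | Ideal.absNorm J = n₀}.ncard := by
        rw [Set.ncard_eq_toFinset_card _ hfin]
        refine Finset.card_le_card_of_injOn (fun q => q.1.2) ?_ ?_
        · intro q hq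
          have hq' := (Finset.mem_filter.mp (Finset.mem_coe.mp hq)).2
          rw [Finset.mem_coe, Set.Finite.mem_toFinset]
          exact hq'.2
        · intro q hq q' hq' h
          have a1 := (Finset.mem_filter.mp (Finset.mem_coe.mp hq)).2
          have a2 := (Finset.mem_filter.mp (Finset.mem_coe.mp hq')).2
          exact Subtype.ext (Prod.ext (a1.1.trans a2.1.symm) h)
      have hd0 : (1 : ℝ) ≤ |(discr (K q₀.1.1) : ℝ)| := by
        have : (1 : ℤ) ≤ |discr (K q₀.1.1)| := Int.one_le_abs (discr_ne_zero (K q₀.1.1))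
        exact_mod_cast this
      have h7 : (n₀ : ℝ) ≤ X := by
        have h8 : (1 : ℝ) ≤ (n₀ : ℝ) := by exact_mod_cast hn₀1
        have h9 : nm q₀.1.2 = (n₀ : ℝ) := rfl
        rw [h9] at hup₀
        have h10 : (n₀ : ℝ) ≤ (n₀ : ℝ) ^ 2 := by nlinarith
        nlinarith
      calc (Q₀.card : ℝ) ≤ ({J : Ideal (𝓞 k) | Ideal.absNorm J = n₀}.ncard : ℝ) := by
            exact_mod_cast h6
        _ ≤ C4 * (n₀ : ℝ) ^ (ε / 8) := h5
        _ ≤ C4 * X ^ (ε / 8) := mul_le_mul_of_nonneg_left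
            (Real.rpow_le_rpow (by positivity) h7 (by positivity)) hC4.le
    have e3 : ∑ q, u q * N q p = ∑ q ∈ Q₀, u q * N q p := by
      symm
      apply Finset.sum_subset (Finset.subset_univ _)
      intro q _ hq
      by_contra h
      apply hq
      have h5 : N q p ≠ 0 := fun h6 => h (by rw [h6, mul_zero])
      exact Finset.mem_filter.mpr ⟨Finset.mem_univ _, (hkey q).2 h5⟩
    rw [e3]
    calc ∑ q ∈ Q₀, u q * N q p ≤ ∑ _q ∈ Q₀, (2 : ℝ) :=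
          Finset.sum_le_sum fun q _ => (hkey q).1
      _ = 2 * (Q₀.card : ℝ) := by rw [Finset.sum_const, nsmul_eq_mul, mul_comm]
      _ ≤ 2 * (C4 * X ^ (ε / 8)) := mul_le_mul_of_nonneg_left hcard (by norm_num)
      _ = _ := by ring
  -- the sum over the pairs
  have hcGp : 0 < cG m s.im := by
    refine Finset.prod_pos fun v _ => norm_pos_iff.mpr ?_
    apply Complex.Gamma_ne_zero_of_re_pos
    simp only [Complex.add_re, Complex.mul_re, Complex.ofReal_re, Complex.I_re, mul_zero,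
      Complex.ofReal_im, Complex.I_im, mul_one, sub_self, add_zero, Complex.intCast_re]
    have : (0 : ℝ) ≤ ((|m v| : ℤ) : ℝ) := by exact_mod_cast abs_nonneg (m v)
    have h5 : (1 / 2 : ℂ).re = 1 / 2 := by norm_num
    rw [h5]
    linarith
  rw [hsumS]
  set P : {q // q ∈ T} → ℝ := fun q => ∑ ψ ∈ Sq' q.1,
    ‖∑ I ∈ Sq b A, α I * lc k ψ I‖ ^ 2 * ‖F ⟨q.1.1, ψ⟩ s‖ ^ 2 with hP
  have hPq : ∀ q : {q // q ∈ T}, P q * cG m s.im ^ 2 ≤
      G * (Tt ^ (2 * j2) * X ^ (κ + 2 * (ε / 8))) * (u q * ∑ p ∈ S', N q p * H p) := by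
    intro q
    obtain ⟨hfr, hcx, hem, hne, hl, hup⟩ := hTp q.1 q.2
    have hqd := hquad q.1 q.2
    have hfin : Module.finrank ℚ (K q.1.1) = 2 * dg k := by
      have h5 := Module.finrank_mul_finrank ℚ k (K q.1.1)
      rw [hfr] at h5
      rw [← h5, mul_comm]
      rfl
    have h5 := one_pair hPVM (by positivity : 0 < ε / 8) hκpos hκle8 hC1 hC2 hC3 k h2 (K q.1.1)
      (h1 (K q.1.1) hfin).1 (Φ q.1.1) q.1.2 hne m b B y hb (R q)
      (fun c => h3 (K q.1.1) q.1.2 _ hne ((R q).pr c)) (Sq' q.1) (fun ψ => F ⟨q.1.1, ψ⟩) hem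
      (by
        intro ψ hψ
        obtain ⟨a1, a2⟩ := (hSq' q.1 ψ).mp hψ
        have a3 := hFml.hk _ a1
        rw [a2] at a3
        exact ⟨a3, hFml.lf _ a1⟩) s A α X hX hs hl hup
    refine h5.trans ?_
    apply mul_le_mul_of_nonneg_left _ (by positivity)
    apply mul_le_mul_of_nonneg_left _ (hu0 q)
    rw [← hNH q]
    refine Finset.sum_le_sum fun c _ => Finset.sum_le_sum fun Λ hΛ => ?_
    rw [hH]
    exact Finset.single_le_sum (f := fun w => ‖Bm s w α b A ((R q).M Λ) ((R q).Q Λ)‖ ^ 2)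
      (fun w _ => by positivity) (hW2 (K q.1.1) (Φ q.1.1) ((R q).α Λ) ((R q).β Λ))
  have htot : (∑ q, P q) * cG m s.im ^ 2 ≤
      G * (Tt ^ (2 * j2) * X ^ (κ + 2 * (ε / 8))) * (2 * C4 * X ^ (ε / 8) *
        (V * ((C0 + 1) * Tt ^ j0 * cG m s.im ^ 2 * X ^ ((3 + ε / 2) / 2) * A))) := by
    rw [Finset.sum_mul]
    calc ∑ q, P q * cG m s.im ^ 2
        ≤ ∑ q, G * (Tt ^ (2 * j2) * X ^ (κ + 2 * (ε / 8))) * (u q * ∑ p ∈ S', N q p * H p) :=
          Finset.sum_le_sum fun q _ => hPq q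
      _ = G * (Tt ^ (2 * j2) * X ^ (κ + 2 * (ε / 8))) * ∑ p ∈ S', (∑ q, u q * N q p) * H p := by
          rw [← Finset.mul_sum]
          congr 1
          simp only [Finset.mul_sum, Finset.sum_mul]
          rw [Finset.sum_comm]
          refine Finset.sum_congr rfl fun p _ => Finset.sum_congr rfl fun q _ => ?_
          ring
      _ ≤ G * (Tt ^ (2 * j2) * X ^ (κ + 2 * (ε / 8))) *
          ∑ p ∈ S', (2 * C4 * X ^ (ε / 8)) * H p := by
          apply mul_le_mul_of_nonneg_left _ (by positivity)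
          exact Finset.sum_le_sum fun p hp => mul_le_mul_of_nonneg_right (hmult p hp) (hH0 p)
      _ = G * (Tt ^ (2 * j2) * X ^ (κ + 2 * (ε / 8))) *
          (2 * C4 * X ^ (ε / 8) * ∑ p ∈ S', H p) := by rw [← Finset.mul_sum]
      _ ≤ _ := by
          apply mul_le_mul_of_nonneg_left _ (by positivity)
          apply mul_le_mul_of_nonneg_left hHsum (by positivity)
  have hA0 : 0 ≤ A := by linarith
  have hexp : X ^ (κ + 2 * (ε / 8)) * X ^ (ε / 8) * X ^ ((3 + ε / 2) / 2) ≤ X ^ (3 / 2 + ε) := by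
    rw [← Real.rpow_add hX0, ← Real.rpow_add hX0]
    have hκ4 : κ ≤ ε / 8 := min_le_right _ _
    exact Real.rpow_le_rpow_of_exponent_le hX (by linarith)
  have hcG2 : 0 < cG m s.im ^ 2 := by positivity
  have hfinal : (∑ q, P q) * cG m s.im ^ 2 ≤
      (G * (2 * C4) * (V * (C0 + 1)) * Tt ^ (2 * j2 + j0) * X ^ (3 / 2 + ε) * A) *
        cG m s.im ^ 2 := by
    calc (∑ q, P q) * cG m s.im ^ 2 ≤ _ := htot
      _ = (G * (2 * C4) * (V * (C0 + 1)) * Tt ^ (2 * j2 + j0) *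
          (X ^ (κ + 2 * (ε / 8)) * X ^ (ε / 8) * X ^ ((3 + ε / 2) / 2)) * A) *
          cG m s.im ^ 2 := by
          rw [pow_add]
          ring
      _ ≤ _ := by
          apply mul_le_mul_of_nonneg_right _ hcG2.le
          apply mul_le_mul_of_nonneg_right _ hA0
          exact mul_le_mul_of_nonneg_left hexp (by positivity)
  exact le_of_mul_le_mul_right hfinal hcG2

end Pool.Agent.H95.CMC
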