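import Pool.Agent.H95.CMC.Asm
import Pool.Agent.H95.CM4.AllC
import Pool.Agent.H65.CM4.AsmA
import Pool.Agent.H98.CMC.FMKL
import Pool.Agent.H38.CMC.FVWL
import Pool.Agent.H72.CMC.FVBL
import Pool.Agent.H72.CMC.FQFL
import Pool.Agent.H56.CMC.FCVL
import Pool.Agent.H19.CMC.FRDL
import Pool.Agent.H51.CMC.FLNB
import Pool.Agent.H20.CMC.FLNI
import Pool.Agent.H73.CMC.FLNC
import Pool.Agent.H24.CMC.FCPR
import Pool.Agent.H99.CMC.FRSL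
import Pool.Agent.H38.CMC.FRHO
import Pool.Agent.H72.CMC.FTAB
import Pool.Agent.H2.CMC.FPRI
import Pool.Agent.H31.CMC.FVAN
import Pool.Agent.H13.CMC.FLSX
import Pool.Agent.H77.CMC.FEJA
import Pool.Agent.H35.CMC.FEJB
import Pool.Agent.H31.CMC.FCVV
import Pool.Agent.H63.CMC.FANG
import Pool.Agent.H36.CMC.FQNL
import Pool.Agent.H24.CMC.FORB
import Pool.Agent.H35.CMC.FTWL
import Pool.Agent.H21.CMC.FLF1
import Pool.Agent.H21.CMC.FLF2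
import Pool.Agent.H20.CMC.FORT
import Pool.Agent.H24.CMC.FBES
import Pool.Agent.H19.CMC.FPVM
import Pool.Agent.H21.CMC.FINM
import Pool.Agent.H51.CMC.FMUM
import Pool.Agent.H13.CMC.FMUN
import Pool.Agent.H78.CMC.FGMN
import Pool.Agent.H95.CMC.FTMF

/-!
# The complete family of CM Hilbert modular forms: part C of stage 2, closed
-/

set_option autoImplicit false

open NumberField

namespace Pool.Agent.H95.CMC

open Pool.Agent.H95.CM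

/-- part C of stage 2 with all rows -/
theorem all_C (hTM : Pool.Agent.H65.CMC.T_TMm)
    (hEZA : ∀ (k : Type) [Field k] [NumberField k] [IsTotallyReal k],
      Pool.Agent.H89.CMC.T_EZAm k) : Pool.Agent.H65.CMC.T_TMFm := by
  have hBAL : T_BAL :=
    b_BAL fun k _ _ _ => Pool.Agent.H33.CM4.pf_BAL k (Pool.Agent.H98.CM4.pf_EMB k)
  have hCOV : T_COV :=
    b_COV fun k _ _ _ => Pool.Agent.H34.CM4.pf_LOW k (Pool.Agent.H98.CM4.pf_EMB k)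
  have hMKI : T_MKI :=
    b_MKI fun k _ _ _ => Pool.Agent.H65.CM4.pf_MKI k (Pool.Agent.H98.CM4.pf_EMB k)
  have hMEM : T_MEM := b_MEM (fun k _ _ _ => Pool.Agent.H96.CM4.pf_FLS k)
      (fun k _ _ _ => Pool.Agent.H34.CM4.pf_IDC k (Pool.Agent.H98.CM4.pf_EMB k))
  have hTPE : T_TPE := Pool.Agent.H14.CM4.pf_TPE hCOV hBAL hMKI
  have hIXL : T_IXL := Pool.Agent.H14.CM4.pf_IXL hMEM
  have hNTP : T_NTP := Pool.Agent.H77.CM4.pf_NTP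
  have hNF2 : T_NF2 := Pool.Agent.H72.CM4.pf_NF2 hNTP
  have hNRI : T_NRI := Pool.Agent.H42.CM4.pf_NRI
  exact part_C hTM hEZA (fun k _ _ _ => Pool.Agent.H65.CM4.a_DVI k) hBAL hCOV
    Pool.Agent.H72.CM4.pf_HUR hTPE hMEM hIXL hNTP hNF2 Pool.Agent.H14.CM4.pf_DTW
    Pool.Agent.H42.CM4.pf_QNV Pool.Agent.H42.CM4.pf_UNI Pool.Agent.H77.CM4.pf_CYC hNRI
    (Pool.Agent.H58.CM4.pf_HBD hNRI)
    Pool.Agent.H98.CMC.pf_MKL Pool.Agent.H38.CMC.pf_VWL Pool.Agent.H72.CMC.pf_VBL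
    Pool.Agent.H72.CMC.pf_QFL Pool.Agent.H56.CMC.pf_CVL Pool.Agent.H19.CMC.pf_RDL
    Pool.Agent.H51.CMC.pf_LNB Pool.Agent.H20.CMC.pf_LNI Pool.Agent.H73.CMC.pf_LNC
    Pool.Agent.H24.CMC.pf_CPR Pool.Agent.H99.CMC.pf_RSL Pool.Agent.H38.CMC.pf_RHO
    Pool.Agent.H72.CMC.pf_TAB Pool.Agent.H2.CMC.pf_PRI Pool.Agent.H31.CMC.pf_VAN
    Pool.Agent.H13.CMC.pf_LSX Pool.Agent.H77.CMC.pf_EJA Pool.Agent.H35.CMC.pf_EJB
    Pool.Agent.H31.CMC.pf_CVV Pool.Agent.H63.CMC.pf_ANG Pool.Agent.H36.CMC.pf_QNL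
    Pool.Agent.H24.CMC.pf_ORB Pool.Agent.H35.CMC.pf_TWL Pool.Agent.H21.CMC.pf_LF1
    Pool.Agent.H21.CMC.pf_LF2 Pool.Agent.H20.CMC.pf_ORT Pool.Agent.H24.CMC.pf_BES
    Pool.Agent.H19.CMC.pf_PVM Pool.Agent.H21.CMC.pf_INM Pool.Agent.H51.CMC.MUM.pf_MUM
    Pool.Agent.H13.CMC.pf_MUN Pool.Agent.H78.CMC.pf_GMN Pool.Agent.H95.CMC.pf_TMF

end Pool.Agent.H95.CMC
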