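import Pool.Agent.H95.CMC.Targets
import Pool.Agent.H65.CM4.Targets1

/-!
# The complete family of CM Hilbert modular forms: assembly of part C of stage 2
-/

set_option autoImplicit false

open NumberField

namespace Pool.Agent.H95.CMC

open Pool.Agent.H65.CM4 Pool.Agent.H65.CMC
open Pool.Agent.H95.CM (T_COV T_HUR T_TPE T_MEM T_IXL T_NTP T_NF2 T_DTW T_QNV T_UNI T_CYC T_NRI
  T_HBD)

/-- part C of stage 2 -/
theorem part_C (hTM : T_TMm)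
    (hEZA : ∀ (k : Type) [Field k] [NumberField k] [IsTotallyReal k],
      Pool.Agent.H89.CMC.T_EZAm k)
    (hDVI : ∀ (k : Type) [Field k] [NumberField k] [IsTotallyReal k], Pool.Agent.H65.CM4.T_DVI k)
    (hBAL : Pool.Agent.H95.CM.T_BAL) (hCOV : T_COV) (hHUR : T_HUR) (hTPE : T_TPE) (hMEM : T_MEM)
    (hIXL : T_IXL) (hNTP : T_NTP) (hNF2 : T_NF2) (hDTW : T_DTW) (hQNV : T_QNV) (hUNI : T_UNI)
    (hCYC : T_CYC) (hNRI : T_NRI) (hHBD : T_HBD)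
    (hMKL : T_MKL)
    (hVWL : T_HUR → T_MKL → T_VWL)
    (hVBL : T_VWL → Pool.Agent.H95.CM.T_BAL → T_COV → T_NF2 → T_VBL)
    (hQFL : T_NF2 → T_NTP → T_QFL)
    (hCVL : T_DTW → T_NF2 → T_IXL → T_CVL)
    (hRDL : T_VBL → T_QFL → T_TPE → T_CVL → T_NTP → T_IXL → T_RDL)
    (hLNB : T_LNB)
    (hLNI : T_LNB → T_LNI)
    (hLNC : (∀ (k : Type) [Field k] [NumberField k] [IsTotallyReal k],
      Pool.Agent.H65.CM4.T_DVI k) → T_LNB → T_LNC)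
    (hCPR : T_CPR)
    (hRSL : T_RDL → T_LNB → T_LNI → T_CPR → T_RSL)
    (hRHO : T_LNB → T_RHO)
    (hTAB : T_LNB → T_RHO → T_TAB)
    (hPRI : T_LNB → T_TAB → T_PRI)
    (hVAN : T_LNB → T_LNI → T_TAB → T_VAN)
    (hLSX : T_MEM → T_IXL → T_LSX)
    (hEJA : T_LNB → T_CYC → T_EJA)
    (hEJB : T_LNB → T_LNI → T_LSX → T_MEM → T_IXL → T_EJB)
    (hCVV : T_MEM → T_LNB → T_LNI → T_PRI → T_VAN → T_LSX → T_EJA → T_EJB → T_CVV)
    (hANG : T_NF2 → T_ANG)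
    (hQNL : T_CVL → T_NTP → T_QNV → T_IXL → T_QNL)
    (hORB : T_ORB)
    (hTWL : T_UNI → T_TWL)
    (hLF1 : (∀ (k : Type) [Field k] [NumberField k] [IsTotallyReal k],
      Pool.Agent.H89.CMC.T_EZAm k) → T_CVV → T_ANG → T_QNL → T_ORB → T_TWL → T_LNB → T_LNI →
      T_RHO → T_MEM → T_IXL → T_QNV → T_CVL → T_UNI → T_LF1)
    (hLF2 : T_LF1 → (∀ (k : Type) [Field k] [NumberField k] [IsTotallyReal k],
      Pool.Agent.H89.CMC.T_EZAm k) → T_MEM → T_IXL → T_QNV → T_CVL → T_LNB → T_LNI → T_LF2)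
    (hORT : T_LNB → T_RHO → T_ORT)
    (hBES : T_BES)
    (hPVM : T_LF2 → T_ORT → T_BES → T_MEM → T_UNI → T_RHO → T_LNB → T_PVM)
    (hINM : T_NTP → T_INM)
    (hMUM : T_INM → T_LNB → T_UNI → T_MUM)
    (hMUN : T_CVL → T_LNB → T_LNI → T_NTP → T_MUN)
    (hGMN : T_GMN)
    (hTMF : T_TMm → T_RSL → T_PVM → T_INM → T_MUM → T_MUN → T_LNC → T_LNB → T_UNI → T_HBD →
      T_NRI → T_GMN → T_TMFm) :
    T_TMFm := by
  have aVWL := hVWL hHUR hMKL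
  have aVBL := hVBL aVWL hBAL hCOV hNF2
  have aQFL := hQFL hNF2 hNTP
  have aCVL := hCVL hDTW hNF2 hIXL
  have aRDL := hRDL aVBL aQFL hTPE aCVL hNTP hIXL
  have aLNI := hLNI hLNB
  have aLNC := hLNC hDVI hLNB
  have aRSL := hRSL aRDL hLNB aLNI hCPR
  have aRHO := hRHO hLNB
  have aTAB := hTAB hLNB aRHO
  have aPRI := hPRI hLNB aTAB
  have aVAN := hVAN hLNB aLNI aTAB
  have aLSX := hLSX hMEM hIXL
  have aEJA := hEJA hLNB hCYC
  have aEJB := hEJB hLNB aLNI aLSX hMEM hIXL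
  have aCVV := hCVV hMEM hLNB aLNI aPRI aVAN aLSX aEJA aEJB
  have aANG := hANG hNF2
  have aQNL := hQNL aCVL hNTP hQNV hIXL
  have aTWL := hTWL hUNI
  have aLF1 := hLF1 hEZA aCVV aANG aQNL hORB aTWL hLNB aLNI aRHO hMEM hIXL hQNV aCVL hUNI
  have aLF2 := hLF2 aLF1 hEZA hMEM hIXL hQNV aCVL hLNB aLNI
  have aORT := hORT hLNB aRHO
  have aPVM := hPVM aLF2 aORT hBES hMEM hUNI aRHO hLNB
  have aINM := hINM hNTP
  exact hTMF hTM aRSL aPVM aINM (hMUM aINM hLNB hUNI) (hMUN aCVL hLNB aLNI hNTP) aLNC hLNB hUNI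
    hHBD hNRI hGMN

end Pool.Agent.H95.CMC
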