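import Pool.Agent.H65.CMC.Defs
import Pool.Agent.H95.CM.TDefs

/-!
# The complete family of CM Hilbert modular forms: definitions of part C of stage 2

`K` is a CM quadratic extension of the totally real field `k`, `f` is a nonzero ideal of `𝓞 k`.
-/

set_option autoImplicit false

open MeasureTheory Set Filter NumberField
open scoped Real nonZeroDivisors

namespace Pool.Agent.H95.CMC

open Pool.Agent.H65.CM4 Pool.Agent.H65.CMC
open Pool.Agent.H95.CM (lin lin_add lin_smul)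

section General

variable (k K : Type) [Field k] [NumberField k] [Field K] [NumberField K] [Algebra k K]

/-- the `𝓞 k`-lattices of integers of `K` -/
abbrev Sl : Type := Submodule (𝓞 k) (𝓞 K)

variable {k K}

/-- the index of a lattice in the integers of `K` -/
noncomputable def ixs (Λ : Sl k K) : ℕ := Λ.toAddSubgroup.index

/-- the ideal of `𝓞 k` generated by the norms of the elements of a lattice -/
noncomputable def ns (Λ : Sl k K) : Ideal (𝓞 k) :=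
  Ideal.span (Algebra.intNorm (𝓞 k) (𝓞 K) '' (Λ : Set (𝓞 K)))

/-- the vectors of the lattice `Λ` in terms of the numbers `α`, `β` -/
noncomputable def ls (α β : K) (Λ : Sl k K) : La k where
  carrier := {u | ∃ x ∈ Λ, (x : K) = lin α β u}
  zero_mem' := ⟨0, Λ.zero_mem, by simp [lin]⟩
  add_mem' := by
    rintro u v ⟨x, hx, ex⟩ ⟨y, hy, ey⟩
    exact ⟨x + y, Λ.add_mem hx hy, by rw [lin_add, ← ex, ← ey]; push_cast; rfl⟩
  smul_mem' := by
    rintro c u ⟨x, hx, ex⟩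
    refine ⟨c • x, Λ.smul_mem c hx, ?_⟩
    rw [lin_smul, ← ex, Algebra.smul_def]
    push_cast
    rfl

/-- the lattice of the integers of `K` with the coordinates in `N` -/
noncomputable def us (α β : K) (N : La k) : Sl k K where
  carrier := {x | ∃ u ∈ N, (x : K) = lin α β u}
  zero_mem' := ⟨0, N.zero_mem, by simp [lin]⟩
  add_mem' := by
    rintro x y ⟨u, hu, ex⟩ ⟨v, hv, ey⟩
    exact ⟨u + v, N.add_mem hu hv, by rw [lin_add, ← ex, ← ey]; push_cast; rfl⟩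
  smul_mem' := by
    rintro c x ⟨u, hu, ex⟩
    refine ⟨c • u, N.smul_mem c hu, ?_⟩
    rw [lin_smul, ← ex, Algebra.smul_def]
    push_cast
    rfl

/-- the line of `l` modulo `f` in the ideal `I`: the lattice `𝓞 k l + f I` -/
noncomputable def ln (f : Ideal (𝓞 k)) (I : Ideal (𝓞 K)) (l : 𝓞 K) : Sl k K where
  carrier := {x | ∃ n : 𝓞 k, x - algebraMap (𝓞 k) (𝓞 K) n * l ∈
    f.map (algebraMap (𝓞 k) (𝓞 K)) * I}
  zero_mem' := ⟨0, by simp⟩
  add_mem' := by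
    rintro x y ⟨n, hn⟩ ⟨n', hn'⟩
    refine ⟨n + n', ?_⟩
    have h : x + y - algebraMap (𝓞 k) (𝓞 K) (n + n') * l =
        (x - algebraMap (𝓞 k) (𝓞 K) n * l) + (y - algebraMap (𝓞 k) (𝓞 K) n' * l) := by
      rw [map_add]; ring
    rw [h]
    exact Ideal.add_mem _ hn hn'
  smul_mem' := by
    rintro c x ⟨n, hn⟩
    refine ⟨c * n, ?_⟩
    have h : c • x - algebraMap (𝓞 k) (𝓞 K) (c * n) * l =
        algebraMap (𝓞 k) (𝓞 K) c * (x - algebraMap (𝓞 k) (𝓞 K) n * l) := by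
      rw [map_mul, Algebra.smul_def]; ring
    rw [h]
    exact Ideal.mul_mem_left _ _ hn

/-- the part of the lattice `Λ` (a line of `I` modulo `f`) of the multiples in `P`: `P Λ + f I` -/
noncomputable def lp (P f : Ideal (𝓞 k)) (I : Ideal (𝓞 K)) (Λ : Sl k K) : Sl k K :=
  P • Λ ⊔ (f.map (algebraMap (𝓞 k) (𝓞 K)) * I).restrictScalars (𝓞 k)

/-- the sublattices `Λ'` of `Λ` with the quotient `𝓞 k / 𝔞` and norms in `𝔞 𝔪` -/
def Es (𝔞 𝔪 : Ideal (𝓞 k)) (Λ : Sl k K) : Set (Sl k K) :=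
  {Λ' | Λ' ≤ Λ ∧ (∃ l ∈ Λ, (∀ x ∈ Λ, ∃ c : 𝓞 k, x - c • l ∈ Λ') ∧ ∀ c : 𝓞 k, c • l ∈ Λ' ↔ c ∈ 𝔞) ∧
    ∀ x ∈ Λ', Algebra.intNorm (𝓞 k) (𝓞 K) x ∈ 𝔞 * 𝔪}

variable (k K)

/-- representatives of the nonzero integers of `K` modulo the units of `k` -/
noncomputable def FK : Set (𝓞 K) :=
  {x | x ≠ 0 ∧ x = Quotient.out (Quotient.mk (MulAction.orbitRel (𝓞 k)ˣ (𝓞 K)) x)}

variable {k} in
/-- the norm of the discriminant of the order of conductor `f` -/
noncomputable def Dl (f : Ideal (𝓞 k)) : ℝ := |(discr K : ℝ)| * nm f ^ 2 / (dk k : ℝ) ^ 2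

end General

section CM

variable {k K : Type} [Field k] [NumberField k] [IsTotallyReal k] [Field K] [NumberField K]
  [IsTotallyComplex K] [Algebra k K] [Algebra.IsQuadraticExtension k K]

open Classical in
/-- the lines of `I` modulo `f` -/
noncomputable def Ln (f : Ideal (𝓞 k)) (I : Ideal (𝓞 K)) : Finset (Sl k K) :=
  if h : {Λ : Sl k K | ∃ l ∈ I, PrTo f (Ideal.span {l}) ∧ Λ = ln f I l}.Finite
    then h.toFinset else ∅

/-- the lattice `Λ` of integers of `K` is the lattice `M` with the form `μ Q` -/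
structure Ol (b : ℕ) (Λ : Sl k K) (α β : K) (μ : k) (M : La k) (Q : QF k) : Prop where
  bM : ∀ u : V2 k, (b : 𝓞 k) • u ∈ M
  lat : M = ls α β Λ
  mem : ∀ x ∈ Λ, ∃ u : V2 k, lin α β u = (x : K)
  inj : ∀ u : V2 k, lin α β u = 0 → u = 0
  pos : ∀ v : Pl k, 0 < rv v μ
  nrm : ∀ u : V2 k, Algebra.norm k (lin α β u) = μ * ((val Q u : 𝓞 k) : k)
  cop : (b : 𝓞 k) ∈ Ideal.span {a : 𝓞 k | ∃ u ∈ M, val Q u = a}

variable (K) in
/-- representatives of the ideal classes, prime to `f`, and the reduced pairs of their lines modulo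
`f` -/
structure RL (f : Ideal (𝓞 k)) (b : ℕ) (B y : ℝ) where
  I : ClassGroup (𝓞 K) → (Ideal (𝓞 K))⁰
  α : Sl k K → K
  β : Sl k K → K
  μ : Sl k K → k
  M : Sl k K → La k
  Q : Sl k K → QF k
  cl : ∀ c, ClassGroup.mk0 (I c) = c
  pr : ∀ c, PrTo f (I c : Ideal (𝓞 K))
  ol : ∀ c, ∀ Λ ∈ Ln f (I c : Ideal (𝓞 K)), Ol b Λ (α Λ) (β Λ) (μ Λ) (M Λ) (Q Λ)
  rd : ∀ c, ∀ Λ ∈ Ln f (I c : Ideal (𝓞 K)), Rd b B y (M Λ) (Q Λ)

open Classical in
/-- the value `ψ((l)) / ty(l)` of the line of `l` modulo `f` -/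
noncomputable def rh (Φ : Pl k → K →+* ℂ) (m : Pl k → ℤ) (ψ : Ideal (𝓞 K) → ℂ) (f : Ideal (𝓞 k))
    (I : Ideal (𝓞 K)) (Λ : Sl k K) : ℂ :=
  if h : ∃ l : 𝓞 K, l ∈ I ∧ PrTo f (Ideal.span {l}) ∧ Λ = ln f I l
    then ψ (Ideal.span {h.choose}) / ty Φ m (h.choose : K) else 0

open Classical in
/-- the weight `m` with the signs of the imaginary parts of `β / α` -/
noncomputable def sm (Φ : Pl k → K →+* ℂ) (α β : K) (m : Pl k → ℤ) (v : Pl k) : ℤ :=
  if 0 < (Φ v (β / α)).im then m v else -m v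

end CM

end Pool.Agent.H95.CMC
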