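import Pool.Agent.H95.CMC.TDefs
import Pool.Agent.H95.CM.Targets
import Pool.Agent.H89.CMC.Targets2

/-!
# The complete family of CM Hilbert modular forms: targets of part C of stage 2

From the twisted second moment over the reduced pairs (`Pool.Agent.H65.CMC.T_TMm`) to the twisted
second moment of the `L`-functions of a fixed weight (`Pool.Agent.H65.CMC.T_TMFm`).
-/

set_option autoImplicit false

open MeasureTheory Set Filter NumberField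
open scoped Real nonZeroDivisors

namespace Pool.Agent.H95.CMC

open Pool.Agent.H65.CM4 Pool.Agent.H65.CMC
open Pool.Agent.H95.CM (lin Nr un)

/-! ### Reduction theory of lattices -/

/-- (MKL) Minkowski's theorem for the norm on a lattice. -/
def T_MKL : Prop :=
  ∀ (K : Type) [Field K] [NumberField K] (Λ : AddSubgroup (𝓞 K)), Λ.index ≠ 0 →
    ∃ v ∈ Λ, v ≠ 0 ∧ |((Algebra.norm ℚ (v : K) : ℚ) : ℝ)| ≤
      (4 / π) ^ Module.finrank ℚ K * (Real.sqrt |(discr K : ℝ)| * Λ.index)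

/-- (VWL) two vectors of a lattice, of bounded index. -/
def T_VWL : Prop :=
  ∀ (k : Type) [Field k] [NumberField k] [IsTotallyReal k], ∃ (b : ℕ) (C : ℝ), 0 < b ∧
    ∀ (K : Type) [Field K] [NumberField K] [IsTotallyComplex K] [Algebra k K]
      [Algebra.IsQuadraticExtension k K] (Λ : Sl k K), ixs Λ ≠ 0 → ∃ v ∈ Λ, ∃ w ∈ Λ,
      (∀ x y : k, algebraMap k K x * (v : K) + algebraMap k K y * (w : K) = 0 → x = 0 ∧ y = 0) ∧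
      (∀ x ∈ Λ, ∃ u : V2 k, (b : K) * (x : K) = lin (v : K) (w : K) u) ∧
      |((Algebra.norm ℚ (v : K) : ℚ) : ℝ)| ≤ C * (Real.sqrt |(discr K : ℝ)| * ixs Λ)

/-- (VBL) the same, balanced. -/
def T_VBL : Prop :=
  ∀ (k : Type) [Field k] [NumberField k] [IsTotallyReal k], ∃ (b : ℕ) (C : ℝ), 0 < b ∧ 1 ≤ C ∧
    ∀ (K : Type) [Field K] [NumberField K] [IsTotallyComplex K] [Algebra k K]
      [Algebra.IsQuadraticExtension k K] (Λ : Sl k K), ixs Λ ≠ 0 → ∃ v ∈ Λ, ∃ w ∈ Λ,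
      (∀ x y : k, algebraMap k K x * (v : K) + algebraMap k K y * (w : K) = 0 → x = 0 ∧ y = 0) ∧
      (∀ x ∈ Λ, ∃ u : V2 k, (b : K) * (x : K) = lin (v : K) (w : K) u) ∧
      |((Algebra.norm ℚ (v : K) : ℚ) : ℝ)| ≤ C * (Real.sqrt |(discr K : ℝ)| * ixs Λ) ∧
      ∀ p q r : k, (∀ x y : k, Algebra.norm k (algebraMap k K x * (v : K) +
          algebraMap k K y * (w : K)) = p * x ^ 2 + q * (x * y) + r * y ^ 2) →
        ∀ i j : Pl k, rv i p ≤ C * rv j p ∧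
          rv i (4 * (p * r) - q ^ 2) ≤ C * rv j (4 * (p * r) - q ^ 2) ∧ |rv i q| ≤ C * rv i p

/-- (QFL) the form of a lattice. -/
def T_QFL : Prop :=
  ∀ (k K : Type) [Field k] [NumberField k] [IsTotallyReal k] [Field K] [NumberField K]
    [IsTotallyComplex K] [Algebra k K] [Algebra.IsQuadraticExtension k K]
    (Λ : Sl k K) (v w : 𝓞 K) (b₁ b₂ : ℕ) (ν : 𝓞 k), v ∈ Λ → w ∈ Λ →
    (∀ x y : k, algebraMap k K x * (v : K) + algebraMap k K y * (w : K) = 0 → x = 0 ∧ y = 0) →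
    0 < b₁ → 0 < b₂ → (∀ x ∈ Λ, ∃ u : V2 k, (b₁ : K) * (x : K) = lin (v : K) (w : K) u) →
    ν ∈ ns Λ → (∀ j : Pl k, 0 < rv j (ν : k)) →
    (∀ m : ℕ, m * Ideal.absNorm (ns Λ) = Ideal.absNorm (Ideal.span {ν}) → m ∣ b₂) →
    ∃ Q : QF k, Ol (b₁ ^ 2 * b₂) Λ ((v : K) / b₁) ((w : K) / b₁)
      ((ν : k) / ((b₁ ^ 2 * b₂ : ℕ) : k)) (ls ((v : K) / b₁) ((w : K) / b₁) Λ) Q

/-- (CVL) the covolume of a lattice. -/
def T_CVL : Prop :=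
  ∀ (k K : Type) [Field k] [NumberField k] [IsTotallyReal k] [Field K] [NumberField K]
    [IsTotallyComplex K] [Algebra k K] [Algebra.IsQuadraticExtension k K]
    (b : ℕ) (Λ : Sl k K) (α β : K) (μ : k) (M : La k) (Q : QF k), 0 < b → ixs Λ ≠ 0 →
    Ol b Λ α β μ M Q → (∀ v : Pl k, 0 < rv v (Q.1 : k) ∧ 0 < rv v (dsc Q : k)) ∧
      (ixs Λ : ℝ) ^ 2 * |(discr K : ℝ)| =
        (ix M : ℝ) ^ 2 * (dk k : ℝ) ^ 2 * (∏ v : Pl k, rv v μ) ^ 2 * ∏ v : Pl k, rv v (dsc Q : k)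

/-- (RDL) every lattice has a reduced pair. -/
def T_RDL : Prop :=
  ∀ (k : Type) [Field k] [NumberField k] [IsTotallyReal k], ∃ (b : ℕ) (B : ℝ), 0 < b ∧ 1 ≤ B ∧
    ∀ (K : Type) [Field K] [NumberField K] [IsTotallyComplex K] [Algebra k K]
      [Algebra.IsQuadraticExtension k K] (Λ : Sl k K) (N : ℕ), ixs Λ ≠ 0 → ns Λ ≠ ⊥ →
      ixs Λ = Ideal.absNorm (ns Λ) * N →
      ∃ (α β : K) (μ : k) (M : La k) (Q : QF k), Ol b Λ α β μ M Q ∧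
        Rd b B ((|(discr K : ℝ)| * (N : ℝ) ^ 2) ^ (1 / (2 * dg k : ℝ))) M Q

/-! ### Lines -/

/-- (LNB) the lines of an ideal modulo `f`. -/
def T_LNB : Prop :=
  ∀ (k K : Type) [Field k] [NumberField k] [IsTotallyReal k] [Field K] [NumberField K]
    [IsTotallyComplex K] [Algebra k K] [Algebra.IsQuadraticExtension k K]
    (f : Ideal (𝓞 k)) (I : Ideal (𝓞 K)), f ≠ ⊥ → PrTo f I →
    (∀ Λ : Sl k K, Λ ∈ Ln f I ↔ ∃ l ∈ I, PrTo f (Ideal.span {l}) ∧ Λ = ln f I l) ∧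
    (∀ l ∈ I, PrTo f (Ideal.span {l}) → ∀ Λ : Sl k K, Λ ∈ Ln f I → (l ∈ Λ ↔ Λ = ln f I l)) ∧
    ∀ Λ : Sl k K, Λ ∈ Ln f I → ∀ x ∈ Λ, x ∈ I

/-- (LNI) the index and the norms of a line. -/
def T_LNI : Prop :=
  ∀ (k K : Type) [Field k] [NumberField k] [IsTotallyReal k] [Field K] [NumberField K]
    [IsTotallyComplex K] [Algebra k K] [Algebra.IsQuadraticExtension k K]
    (f : Ideal (𝓞 k)) (I : Ideal (𝓞 K)) (l : 𝓞 K), f ≠ ⊥ → PrTo f I → l ∈ I →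
    PrTo f (Ideal.span {l}) →
    ixs (ln f I l) = Ideal.absNorm I * Ideal.absNorm f ∧ ns (ln f I l) = Ideal.relNorm (𝓞 k) I

/-- (LNC) the number of the lines. -/
def T_LNC : Prop :=
  ∀ (k : Type) [Field k] [NumberField k] [IsTotallyReal k] (ε : ℝ), 0 < ε → ∃ C : ℝ, 0 < C ∧
    ∀ (K : Type) [Field K] [NumberField K] [IsTotallyComplex K] [Algebra k K]
      [Algebra.IsQuadraticExtension k K] (f : Ideal (𝓞 k)) (I : Ideal (𝓞 K)), f ≠ ⊥ → PrTo f I →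
      ((Ln f I).card : ℝ) ≤ C * nm f ^ (1 + ε)

/-- (CPR) representatives of the ideal classes, prime to `f`. -/
def T_CPR : Prop :=
  ∀ (k K : Type) [Field k] [NumberField k] [IsTotallyReal k] [Field K] [NumberField K]
    [Algebra k K] (f : Ideal (𝓞 k)), f ≠ ⊥ → ∀ c : ClassGroup (𝓞 K), ∃ I : (Ideal (𝓞 K))⁰,
      ClassGroup.mk0 I = c ∧ PrTo f (I : Ideal (𝓞 K))

/-- (RSL) representatives exist. -/
def T_RSL : Prop :=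
  ∀ (k : Type) [Field k] [NumberField k] [IsTotallyReal k], ∃ (b : ℕ) (B : ℝ), 0 < b ∧ 1 ≤ B ∧
    ∀ b' : ℕ, 0 < b' → b ∣ b' → ∀ (K : Type) [Field K] [NumberField K] [IsTotallyComplex K]
      [Algebra k K] [Algebra.IsQuadraticExtension k K] (f : Ideal (𝓞 k)) (y : ℝ), f ≠ ⊥ →
      (|(discr K : ℝ)| * nm f ^ 2) ^ (1 / (2 * dg k : ℝ)) ≤ y →
      y ≤ 2 * (|(discr K : ℝ)| * nm f ^ 2) ^ (1 / (2 * dg k : ℝ)) → Nonempty (RL K f b' B y)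

/-! ### Characters and lines -/

/-- (RHO) the values of a character on the lines. -/
def T_RHO : Prop :=
  ∀ (k K : Type) [Field k] [NumberField k] [IsTotallyReal k] [Field K] [NumberField K]
    [IsTotallyComplex K] [Algebra k K] [Algebra.IsQuadraticExtension k K]
    (Φ : Pl k → K →+* ℂ) (f : Ideal (𝓞 k)) (m : Pl k → ℤ) (ψ : Ideal (𝓞 K) → ℂ)
    (I : Ideal (𝓞 K)), Emb k Φ → IsHk Φ f m ψ → PrTo f I →
    (∀ x : K, x ≠ 0 → ‖ty Φ m x‖ = 1) ∧ (∀ x y : K, ty Φ m (x * y) = ty Φ m x * ty Φ m y) ∧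
    (∀ l ∈ I, PrTo f (Ideal.span {l}) →
      rh Φ m ψ f I (ln f I l) = ψ (Ideal.span {l}) / ty Φ m (l : K)) ∧
    ∀ Λ : Sl k K, Λ ∈ Ln f I → ‖rh Φ m ψ f I Λ‖ = 1

/-- (TAB) the translation of the lines by an element on which the character is not trivial. -/
def T_TAB : Prop :=
  ∀ (k K : Type) [Field k] [NumberField k] [IsTotallyReal k] [Field K] [NumberField K]
    [IsTotallyComplex K] [Algebra k K] [Algebra.IsQuadraticExtension k K]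
    (Φ : Pl k → K →+* ℂ) (f : Ideal (𝓞 k)) (m : Pl k → ℤ) (ψ : Ideal (𝓞 K) → ℂ)
    (I : Ideal (𝓞 K)), Emb k Φ → IsHk Φ f m ψ → PrTo f I →
    ∀ P : Ideal (𝓞 k), P.IsPrime → P ∣ f → ∃ (ξ : ℂ) (T : Sl k K → Sl k K), ξ ≠ 1 ∧
      (∀ Λ : Sl k K, Λ ∈ Ln f I → T Λ ∈ Ln f I ∧ rh Φ m ψ f I (T Λ) = ξ * rh Φ m ψ f I Λ ∧
        lp P f I (T Λ) = lp P f I Λ) ∧
      ∀ Λ Λ' : Sl k K, Λ ∈ Ln f I → Λ' ∈ Ln f I → T Λ = T Λ' → Λ = Λ'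

open Classical in
/-- (PRI) cancellation over the lines through a vector which is not prime to `f`. -/
def T_PRI : Prop :=
  ∀ (k K : Type) [Field k] [NumberField k] [IsTotallyReal k] [Field K] [NumberField K]
    [IsTotallyComplex K] [Algebra k K] [Algebra.IsQuadraticExtension k K]
    (Φ : Pl k → K →+* ℂ) (f : Ideal (𝓞 k)) (m : Pl k → ℤ) (ψ : Ideal (𝓞 K) → ℂ)
    (I : Ideal (𝓞 K)), Emb k Φ → IsHk Φ f m ψ → PrTo f I →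
    ∀ v ∈ I, v ≠ 0 → ¬ PrTo f (Ideal.span {v}) →
      ∑ Λ ∈ (Ln f I).filter (fun Λ : Sl k K => v ∈ Λ), rh Φ m ψ f I Λ = 0

open Classical in
/-- (VAN) cancellation over the lines which contain a sublattice of an index not prime to `f`. -/
def T_VAN : Prop :=
  ∀ (k K : Type) [Field k] [NumberField k] [IsTotallyReal k] [Field K] [NumberField K]
    [IsTotallyComplex K] [Algebra k K] [Algebra.IsQuadraticExtension k K]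
    (Φ : Pl k → K →+* ℂ) (f : Ideal (𝓞 k)) (m : Pl k → ℤ) (ψ : Ideal (𝓞 K) → ℂ)
    (I : Ideal (𝓞 K)), Emb k Φ → IsHk Φ f m ψ → PrTo f I →
    ∀ 𝔞 : Ideal (𝓞 k), 𝔞 ≠ ⊥ → Squarefree 𝔞 → 𝔞 ⊔ f ≠ ⊤ → ∀ Λ' : Sl k K,
      ∑ Λ ∈ (Ln f I).filter (fun Λ : Sl k K => Λ' ∈ Es 𝔞 (Ideal.relNorm (𝓞 k) I) Λ),
        rh Φ m ψ f I Λ = 0

/-! ### Divisors -/

/-- (LSX) the lattices on which the form is divisible, without coordinates. -/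
def T_LSX : Prop :=
  ∀ (k K : Type) [Field k] [NumberField k] [IsTotallyReal k] [Field K] [NumberField K]
    [IsTotallyComplex K] [Algebra k K] [Algebra.IsQuadraticExtension k K]
    (b : ℕ) (Λ : Sl k K) (α β : K) (μ : k) (M : La k) (Q : QF k), 0 < b →
    Ol b Λ α β μ M Q → ∀ 𝔞 : Ideal (𝓞 k), 𝔞 ≠ ⊥ → 𝔞 ⊔ Ideal.span {(b : 𝓞 k)} = ⊤ →
    (∀ L ∈ Ls 𝔞, Dv 𝔞 L Q → us α β (M ⊓ L) ∈ Es 𝔞 (ns Λ) Λ) ∧
    (∀ Λ' ∈ Es 𝔞 (ns Λ) Λ, ∃ L ∈ Ls 𝔞, Dv 𝔞 L Q ∧ us α β (M ⊓ L) = Λ') ∧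
    ∀ L ∈ Ls 𝔞, ∀ L' ∈ Ls 𝔞, us (K := K) α β (M ⊓ L) = us α β (M ⊓ L') → L = L'

/-- (EJA) an ideal of squarefree norm gives a sublattice of a line. -/
def T_EJA : Prop :=
  ∀ (k K : Type) [Field k] [NumberField k] [IsTotallyReal k] [Field K] [NumberField K]
    [IsTotallyComplex K] [Algebra k K] [Algebra.IsQuadraticExtension k K]
    (f : Ideal (𝓞 k)) (I : Ideal (𝓞 K)), f ≠ ⊥ → PrTo f I → ∀ Λ : Sl k K, Λ ∈ Ln f I →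
    (∀ J : Ideal (𝓞 K), J ≠ ⊥ → Squarefree (Ideal.relNorm (𝓞 k) J) →
      Ideal.relNorm (𝓞 k) J ⊔ f = ⊤ →
      Λ ⊓ (J * I).restrictScalars (𝓞 k) ∈
        Es (Ideal.relNorm (𝓞 k) J) (Ideal.relNorm (𝓞 k) I) Λ) ∧
    ∀ J J' : Ideal (𝓞 K), J ≠ ⊥ → J' ≠ ⊥ → Ideal.relNorm (𝓞 k) J ⊔ f = ⊤ →
      Ideal.relNorm (𝓞 k) J' ⊔ f = ⊤ →
      Λ ⊓ (J * I).restrictScalars (𝓞 k) = Λ ⊓ (J' * I).restrictScalars (𝓞 k) → J = J'

/-- (EJB) every sublattice of a line with divisible norms is given by an ideal. -/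
def T_EJB : Prop :=
  ∀ (k K : Type) [Field k] [NumberField k] [IsTotallyReal k] [Field K] [NumberField K]
    [IsTotallyComplex K] [Algebra k K] [Algebra.IsQuadraticExtension k K]
    (f : Ideal (𝓞 k)) (I : Ideal (𝓞 K)) (b : ℕ) (Λ : Sl k K) (α β : K) (μ : k) (M : La k)
    (Q : QF k), f ≠ ⊥ → PrTo f I → Λ ∈ Ln f I → 0 < b → Ol b Λ α β μ M Q →
    ∀ 𝔞 : Ideal (𝓞 k), 𝔞 ≠ ⊥ → 𝔞 ⊔ Ideal.span {(b : 𝓞 k)} = ⊤ → 𝔞 ⊔ f = ⊤ →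
    ∀ Λ' ∈ Es 𝔞 (Ideal.relNorm (𝓞 k) I) Λ, ∃ J : Ideal (𝓞 K), J ≠ ⊥ ∧
      Ideal.relNorm (𝓞 k) J = 𝔞 ∧ Λ' = Λ ⊓ (J * I).restrictScalars (𝓞 k)

open Classical in
/-- (CVV) the number of the pairs of a line and a sublattice, with characters. -/
def T_CVV : Prop :=
  ∀ (k K : Type) [Field k] [NumberField k] [IsTotallyReal k] [Field K] [NumberField K]
    [IsTotallyComplex K] [Algebra k K] [Algebra.IsQuadraticExtension k K]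
    (Φ : Pl k → K →+* ℂ) (f : Ideal (𝓞 k)) (m : Pl k → ℤ) (ψ : Ideal (𝓞 K) → ℂ)
    (b : ℕ) (B y : ℝ) (R : RL K f b B y), Emb k Φ → IsHk Φ f m ψ → 0 < b →
    ∀ (c : ClassGroup (𝓞 K)) (𝔞 : Ideal (𝓞 k)), 𝔞 ≠ ⊥ → Squarefree 𝔞 →
    𝔞 ⊔ Ideal.span {(b : 𝓞 k)} = ⊤ → ∀ v : 𝓞 K, v ∈ (R.I c : Ideal (𝓞 K)) → v ≠ 0 →
    ∑ Λ ∈ Ln f (R.I c : Ideal (𝓞 K)), ∑ L ∈ (Ls 𝔞).filter (fun L => Dv 𝔞 L (R.Q Λ)),
      (if v ∈ us (R.α Λ) (R.β Λ) (R.M Λ ⊓ L) then rh Φ m ψ f (R.I c) Λ else 0) =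
    ∑ J ∈ Nr k K 𝔞, if PrTo f (J : Ideal (𝓞 K)) ∧ v ∈ (J : Ideal (𝓞 K)) * R.I c ∧
      PrTo f (Ideal.span {v}) then rh Φ m ψ f (R.I c) (ln f (R.I c) v) else 0

/-! ### Vectors and ideals -/

/-- (ANG) the angular factor. -/
def T_ANG : Prop :=
  ∀ (k K : Type) [Field k] [NumberField k] [IsTotallyReal k] [Field K] [NumberField K]
    [IsTotallyComplex K] [Algebra k K] [Algebra.IsQuadraticExtension k K]
    (Φ : Pl k → K →+* ℂ) (b : ℕ) (Λ : Sl k K) (α β : K) (μ : k) (M : La k) (Q : QF k), Emb k Φ →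
    Ol b Λ α β μ M Q → (∀ v : Pl k, 0 < rv v (Q.1 : k) ∧ 0 < rv v (dsc Q : k)) →
    ∀ (m : Pl k → ℤ) (u : V2 k), u ≠ 0 → ty Φ m (lin α β u) =
      ty Φ m α * an (sm Φ α β m) (fun v => (zx Q v : ℂ)) (fun v => (zy Q v : ℂ)) u

/-- (QNL) the metric and the norm. -/
def T_QNL : Prop :=
  ∀ (k K : Type) [Field k] [NumberField k] [IsTotallyReal k] [Field K] [NumberField K]
    [IsTotallyComplex K] [Algebra k K] [Algebra.IsQuadraticExtension k K]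
    (b : ℕ) (Λ : Sl k K) (α β : K) (μ : k) (M : La k) (Q : QF k), 0 < b → ixs Λ ≠ 0 →
    Ol b Λ α β μ M Q → ix M ≠ 0 ∧ ∀ (u : V2 k) (x : 𝓞 K), u ≠ 0 → (x : K) = lin α β u →
      qn (fun v => (zx Q v : ℂ)) (fun v => (zy Q v : ℂ)) u / (ix M : ℂ) =
        ((nm (Ideal.span {x}) * dk k / (ixs Λ * Real.sqrt |(discr K : ℝ)|) : ℝ) : ℂ)

open Classical in
/-- (ORB) sums over vectors modulo units are sums over integers of `K` modulo units. -/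
def T_ORB : Prop :=
  ∀ (k K : Type) [Field k] [NumberField k] [Field K] [NumberField K] [Algebra k K] (α β : K)
    (N : La k) (g : 𝓞 K → ℂ) (h : V2 k → ℂ) (a : ℂ), (∀ u : V2 k, lin α β u = 0 → u = 0) →
    (∀ u ∈ N, ∃ x : 𝓞 K, (x : K) = lin α β u) →
    (∀ (ε : (𝓞 k)ˣ) (x : 𝓞 K), g ((ε : 𝓞 k) • x) = g x) →
    (∀ u ∈ N, u ≠ 0 → ∀ x : 𝓞 K, (x : K) = lin α β u → h u = g x) →
    HasSum (fun u : V2 k => if u ∈ N ∧ u ∈ Fo k then h u else 0) a →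
    HasSum (fun x : 𝓞 K => if x ∈ us α β N ∧ x ∈ FK k K then g x else 0) a

open Classical in
/-- (TWL) sums over the ideals of a class are sums over the elements of an ideal. -/
def T_TWL : Prop :=
  ∀ (k K : Type) [Field k] [NumberField k] [IsTotallyReal k] [Field K] [NumberField K]
    [IsTotallyComplex K] [Algebra k K] [Algebra.IsQuadraticExtension k K] (𝔟 : (Ideal (𝓞 K))⁰)
    (h : (Ideal (𝓞 K))⁰ → ℂ) (g : 𝓞 K → ℂ) (a : ℂ),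
    (∀ (x : 𝓞 K) (J : (Ideal (𝓞 K))⁰), x ≠ 0 →
      Ideal.span {x} = (J : Ideal (𝓞 K)) * 𝔟 → g x = h J) →
    HasSum (fun J : (Ideal (𝓞 K))⁰ =>
      if ClassGroup.mk0 J = (ClassGroup.mk0 𝔟)⁻¹ then h J else 0) a →
    HasSum (fun x : 𝓞 K => if x ∈ (𝔟 : Ideal (𝓞 K)) ∧ x ∈ FK k K then g x else 0) (un k K * a)

/-! ### The `L`-functions -/

open Classical in
/-- (LF1) the twisted `L`-function in terms of the forms, `Re s > 1`. -/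
def T_LF1 : Prop :=
  ∀ (k K : Type) [Field k] [NumberField k] [IsTotallyReal k] [Field K] [NumberField K]
    [IsTotallyComplex K] [Algebra k K] [Algebra.IsQuadraticExtension k K]
    (Φ : Pl k → K →+* ℂ) (f : Ideal (𝓞 k)) (m : Pl k → ℤ) (ψ : Ideal (𝓞 K) → ℂ)
    (b : ℕ) (B y : ℝ) (R : RL K f b B y), Emb k Φ → IsHk Φ f m ψ → 0 < b →
    ∀ 𝔞 : Ideal (𝓞 k), 𝔞 ≠ ⊥ → Squarefree 𝔞 → 𝔞 ⊔ Ideal.span {(b : 𝓞 k)} = ⊤ →
    ∀ s : ℂ, 1 < s.re → s.re < 2 → ∀ a : ℂ, HasSum (fun J : (Ideal (𝓞 K))⁰ =>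
      ψ J * (Ideal.absNorm (J : Ideal (𝓞 K)) : ℂ) ^ (-s)) a →
      lc k ψ 𝔞 * (GM m s * (Dl K f : ℂ) ^ (s / 2) * a) =
        (un k K : ℂ)⁻¹ * ∑ c, (ψ (R.I c))⁻¹ * ∑ Λ ∈ Ln f (R.I c : Ideal (𝓞 K)),
          rh Φ m ψ f (R.I c) Λ * ty Φ m (R.α Λ) *
          ∑ L ∈ (Ls 𝔞).filter (fun L => Dv 𝔞 L (R.Q Λ)),
            Zm s (sm Φ (R.α Λ) (R.β Λ) m) (R.M Λ ⊓ L) (zx (R.Q Λ)) (zy (R.Q Λ))

open Classical in
/-- (LF2) the twisted `L`-function in terms of the forms. -/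
def T_LF2 : Prop :=
  ∀ (k K : Type) [Field k] [NumberField k] [IsTotallyReal k] [Field K] [NumberField K]
    [IsTotallyComplex K] [Algebra k K] [Algebra.IsQuadraticExtension k K]
    (Φ : Pl k → K →+* ℂ) (f : Ideal (𝓞 k)) (m : Pl k → ℤ) (ψ : Ideal (𝓞 K) → ℂ) (F : ℂ → ℂ)
    (b : ℕ) (B y : ℝ) (R : RL K f b B y), Emb k Φ → IsHk Φ f m ψ → IsLk K ψ F → 0 < b →
    ∀ 𝔞 : Ideal (𝓞 k), 𝔞 ≠ ⊥ → Squarefree 𝔞 → 𝔞 ⊔ Ideal.span {(b : 𝓞 k)} = ⊤ →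
    ∀ s : ℂ, 0 < s.re → s.re < 2 → s ≠ 1 →
      lc k ψ 𝔞 * (GM m s * (Dl K f : ℂ) ^ (s / 2) * F s) =
        (un k K : ℂ)⁻¹ * ∑ c, (ψ (R.I c))⁻¹ * ∑ Λ ∈ Ln f (R.I c : Ideal (𝓞 K)),
          rh Φ m ψ f (R.I c) Λ * ty Φ m (R.α Λ) *
          ∑ L ∈ (Ls 𝔞).filter (fun L => Dv 𝔞 L (R.Q Λ)),
            Zm s (sm Φ (R.α Λ) (R.β Λ) m) (R.M Λ ⊓ L) (zx (R.Q Λ)) (zy (R.Q Λ))

/-- (ORT) orthogonality. -/
def T_ORT : Prop :=
  ∀ (k K : Type) [Field k] [NumberField k] [IsTotallyReal k] [Field K] [NumberField K]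
    [IsTotallyComplex K] [Algebra k K] [Algebra.IsQuadraticExtension k K]
    (Φ : Pl k → K →+* ℂ) (f : Ideal (𝓞 k)) (m : Pl k → ℤ) (ψ ψ' : Ideal (𝓞 K) → ℂ)
    (b : ℕ) (B y : ℝ) (R : RL K f b B y), Emb k Φ → IsHk Φ f m ψ → IsHk Φ f m ψ' → ψ ≠ ψ' →
    ∑ c, ∑ Λ ∈ Ln f (R.I c : Ideal (𝓞 K)), ((ψ (R.I c))⁻¹ * rh Φ m ψ f (R.I c) Λ) *
      (starRingEnd ℂ) ((ψ' (R.I c))⁻¹ * rh Φ m ψ' f (R.I c) Λ) = 0

/-- (BES) Bessel's inequality. -/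
def T_BES : Prop :=
  ∀ (τ κ : Type) (P : Finset τ) (S : Finset κ) (χ : κ → τ → ℂ) (F : τ → ℂ),
    (∀ x ∈ S, ∀ p ∈ P, ‖χ x p‖ = 1) →
    (∀ x ∈ S, ∀ y ∈ S, x ≠ y → ∑ p ∈ P, χ x p * (starRingEnd ℂ) (χ y p) = 0) →
    ∑ x ∈ S, ‖∑ p ∈ P, χ x p * F p‖ ^ 2 ≤ P.card * ∑ p ∈ P, ‖F p‖ ^ 2

/-- (PVM) the twisted second moment for one field and one conductor. -/
def T_PVM : Prop :=
  ∀ (k K : Type) [Field k] [NumberField k] [IsTotallyReal k] [Field K] [NumberField K]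
    [IsTotallyComplex K] [Algebra k K] [Algebra.IsQuadraticExtension k K]
    (Φ : Pl k → K →+* ℂ) (f : Ideal (𝓞 k)) (m : Pl k → ℤ) (b : ℕ) (B y : ℝ) (R : RL K f b B y)
    (S : Finset (Ideal (𝓞 K) → ℂ)) (F : (Ideal (𝓞 K) → ℂ) → ℂ → ℂ), Emb k Φ → 0 < b →
    (∀ ψ ∈ S, IsHk Φ f m ψ ∧ IsLk K ψ (F ψ)) →
    ∀ (s : ℂ) (A : ℝ) (a : Ideal (𝓞 k) → ℂ), |s.re - 1 / 2| ≤ 1 / 8 →
    ∑ ψ ∈ S, ‖∑ I ∈ Sq b A, a I * lc k ψ I‖ ^ 2 * ‖F ψ s‖ ^ 2 *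
        (‖GM m s‖ ^ 2 * Dl K f ^ s.re) ≤
      ((un k K : ℝ)⁻¹) ^ 2 * (∑ c, ((Ln f (R.I c : Ideal (𝓞 K))).card : ℝ)) *
        ∑ c, ∑ Λ ∈ Ln f (R.I c : Ideal (𝓞 K)),
          ‖Bm s (sm Φ (R.α Λ) (R.β Λ) m) a b A (R.M Λ) (R.Q Λ)‖ ^ 2

/-! ### Multiplicities -/

/-- (INM) a lattice and a form determine the field. -/
def T_INM : Prop :=
  ∀ (k K K' : Type) [Field k] [NumberField k] [IsTotallyReal k] [Field K] [NumberField K]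
    [IsTotallyComplex K] [Algebra k K] [Algebra.IsQuadraticExtension k K] [Field K']
    [NumberField K'] [IsTotallyComplex K'] [Algebra k K'] [Algebra.IsQuadraticExtension k K']
    (b b' : ℕ) (Λ : Sl k K) (Λ' : Sl k K') (α β : K) (α' β' : K') (μ μ' : k) (M : La k)
    (Q : QF k), 0 < b → 0 < b' → Ol b Λ α β μ M Q → Ol b' Λ' α' β' μ' M Q →
    ∃ (e : K ≃ₐ[k] K') (t : K'), t ≠ 0 ∧ ∀ u : V2 k, lin α' β' u = t * e (lin α β u)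

/-- (MUM) a lattice and a form determine the line up to conjugation and units. -/
def T_MUM : Prop :=
  ∀ (k K : Type) [Field k] [NumberField k] [IsTotallyReal k] [Field K] [NumberField K]
    [IsTotallyComplex K] [Algebra k K] [Algebra.IsQuadraticExtension k K]
    (f : Ideal (𝓞 k)) (b : ℕ) (B y : ℝ) (R : RL K f b B y) (M : La k) (Q : QF k), f ≠ ⊥ → 0 < b →
    {p : ClassGroup (𝓞 K) × Sl k K | p.2 ∈ Ln f (R.I p.1 : Ideal (𝓞 K)) ∧ R.M p.2 = M ∧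
      R.Q p.2 = Q}.ncard ≤ 2 * un k K

/-- (MUN) a lattice and a form determine the norm of the conductor. -/
def T_MUN : Prop :=
  ∀ (k K : Type) [Field k] [NumberField k] [IsTotallyReal k] [Field K] [NumberField K]
    [IsTotallyComplex K] [Algebra k K] [Algebra.IsQuadraticExtension k K]
    (f f' : Ideal (𝓞 k)) (b b' : ℕ) (I I' : Ideal (𝓞 K)) (Λ Λ' : Sl k K) (α β α' β' : K)
    (μ μ' : k) (M : La k) (Q : QF k), f ≠ ⊥ → f' ≠ ⊥ → PrTo f I → PrTo f' I' → Λ ∈ Ln f I →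
    Λ' ∈ Ln f' I' → 0 < b → 0 < b' → Ol b Λ α β μ M Q → Ol b' Λ' α' β' μ' M Q →
    Ideal.absNorm f = Ideal.absNorm f'

/-- (GMN) the lower bound for the Gamma factor. -/
def T_GMN : Prop :=
  ∀ (k : Type) [Field k] [NumberField k] [IsTotallyReal k], ∃ (C : ℝ) (j : ℕ), 0 < C ∧
    ∀ (m : Pl k → ℤ) (s : ℂ), |s.re - 1 / 2| ≤ 1 / 8 →
      cG m s.im ≤ C * (1 + |s.im| + ms m) ^ j * ‖GM m s‖

end Pool.Agent.H95.CMC
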